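import Mathlib
import Pool.Agent.H.MP_c8cc4c_co.Iface

/-!
# MP_c8cc4c_co, full question: interface

`G` = graph of a triangulated sphere, `o` a vertex, `f` = distance to `o`, `par` = breadth first tree.
A family of pairs (graph `Γ`) with short paths `Q e` in `G`, every vertex is an interior vertex of at
most `c` of the paths.  Claim: `Γ` has bounded book thickness (bound depends on `l`, `c` only).
-/

open scoped Classical
open Finset

noncomputable section

namespace Pool.Agent.H.MP_c8cc4c_co.Hub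

/-! ### Rooted graphs -/

/-- connected graph with a breadth first tree -/
structure Rt (V : Type) where
  G : SimpleGraph V
  o : V
  f : V → ℕ
  par : V → V
  f_zero : ∀ v, f v = 0 ↔ v = o
  par_o : par o = o
  par_adj : ∀ v, v ≠ o → G.Adj v (par v)
  par_f : ∀ v, v ≠ o → f v = f (par v) + 1
  adj_f : ∀ u v, G.Adj u v → f u ≤ f v + 1

namespace Rt

variable {V : Type} (R : Rt V)

/-- `a` is an ancestor of `v` or `v` itself -/
def anc (a v : V) : Prop := ∃ n : ℕ, R.par^[n] v = a

/-- the vertices of height more than `h` -/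
def hi (h : ℕ) : Set V := {v | h < R.f v}

/-- the regions at height `h`: components of `hi h` -/
def Core (h : ℕ) (K : Set V) : Prop := IsComp R.G (R.hi h) K

/-- the region at height `h` which contains `v` -/
def comp (h : ℕ) (v : V) : Set V := {w | ∃ n, Near R.G (R.hi h) n v w}

/-- contraction of the regions at height `h` to their root vertices `k` -/
def img (k : Set V → V) (h : ℕ) (v : V) : V := if R.f v ≤ h then v else k (R.comp h v)

end Rt

/-! ### Tours -/

/-- The tour around the tree `par`: `own t` = vertex at time `t`, `ch u v` = the time at `u` at which the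
edge `uv` is seen. -/
structure Tour {V : Type} (R : Rt V) where
  m : ℕ
  own : ℕ → V
  ch : V → V → ℕ
  surj : ∀ v, ∃ t < m, own t = v
  ch_lt : ∀ u v, R.G.Adj u v → ch u v < m
  own_ch : ∀ u v, R.G.Adj u v → own (ch u v) = u
  /-- the times of the descendants of `a` are an interval -/
  conv : ∀ a i j k, i < j → j < k → k < m → R.anc a (own i) → R.anc a (own k) → R.anc a (own j)
  /-- the edges do not cross -/
  nc : ∀ u v x y, R.G.Adj u v → R.G.Adj x y →
    ¬ (ch u v < ch x y ∧ ch x y < ch v u ∧ ch v u < ch y x)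

/-! ### Planarity -/

/-- disjoint connected sets: one of them is adjacent to at most five of the others -/
def M5 {V : Type} (G : SimpleGraph V) : Prop := ∀ (ι : Type) [Fintype ι] (X : ι → Set V),
  Nonempty ι → (∀ i, ConnOn G (X i)) → (∀ i j, i ≠ j → Disjoint (X i) (X j)) →
  ∃ i, (univ.filter fun j => j ≠ i ∧ ∃ x ∈ X i, ∃ y ∈ X j, G.Adj x y).card ≤ 5

/-- no `K_{3,4}` -/
def K34 {V : Type} (G : SimpleGraph V) : Prop := ∀ (A B C : Set V) (σ : Fin 4 → Set V),
  ConnOn G A → ConnOn G Aᶜ → ConnOn G B → ConnOn G C → (∀ i, ConnOn G (σ i)) →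
  Disjoint A B → Disjoint A C → Disjoint B C →
  (∀ i, Disjoint (σ i) A ∧ Disjoint (σ i) B ∧ Disjoint (σ i) C) →
  (∀ i j, i ≠ j → Disjoint (σ i) (σ j)) →
  (∀ i, (∃ x ∈ σ i, ∃ y ∈ A, G.Adj x y) ∧ (∃ x ∈ σ i, ∃ y ∈ B, G.Adj x y) ∧
    ∃ x ∈ σ i, ∃ y ∈ C, G.Adj x y) → False

/-- Part T -/
def TourStmt : Prop := ∀ M : PC, M.IsSphere → M.Simple → M.Tri → ∀ R : Rt M.V, R.G = M.graph →
  Nonempty (Tour R)

/-- Part M -/
def M5Stmt : Prop := ∀ M : PC, M.IsSphere → M5 M.graph

/-- Part M -/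
def K34Stmt : Prop := ∀ M : PC, M.IsSphere → M.Simple → M.Tri → K34 M.graph

/-- `X` and `Y` are joined by a path with all interior vertices in `L` -/
def Link {V : Type} (G : SimpleGraph V) (X Y L : Set V) : Prop :=
  ∃ x ∈ X, ∃ y ∈ Y, ∃ n, Near G ({x, y} ∪ L) n x y

/-- Part M: few pairs of disjoint connected sets can be linked by short links of bounded congestion. -/
def Fact2Stmt : Prop := ∀ l c : ℕ, ∃ d : ℕ, ∀ (V : Type) [Fintype V] (G : SimpleGraph V), M5 G →
  ∀ (ι : Type) [Fintype ι] (X : ι → Set V), (∀ i, ConnOn G (X i)) →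
  (∀ i j, i ≠ j → Disjoint (X i) (X j)) →
  ∀ (Y : Type) [Fintype Y] (a b : Y → ι) (L : Y → Finset V), (∀ y, a y ≠ b y) →
  (∀ y, (L y).card ≤ l) → (∀ v, (univ.filter fun y => v ∈ L y).card ≤ c) →
  (∀ y, Link G (X (a y)) (X (b y)) (L y)) →
  ∀ S : Finset ι, ((S ×ˢ S).filter fun q => ∃ y, a y = q.1 ∧ b y = q.2).card ≤ d * S.card

/-! ### Families of short paths -/

/-- A graph `Γ` whose edges are represented by paths of length at most `l` in `G`, such that every vertex
is an interior vertex of at most `c` paths. -/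
structure Fam {V : Type} [Fintype V] (R : Rt V) (l c : ℕ) where
  Γ : SimpleGraph V
  Q : Sym2 V → Finset V
  path : ∀ x u, Γ.Adj x u → ∃ p : R.G.Walk x u, p.IsPath ∧ p.length ≤ l ∧
    ∀ v, v ∈ Q s(x, u) ↔ v ∈ p.support
  cong : ∀ v, (univ.filter fun e : Sym2 V => e ∈ Γ.edgeSet ∧ v ∈ Q e ∧ v ∉ e).card ≤ c
  no_o : ∀ x u, Γ.Adj x u → R.o ∉ Q s(x, u)

/-- the height of a layer -/
def HH (l : ℕ) : ℕ := 3 * l + 1

namespace Fam

variable {V : Type} [Fintype V] {R : Rt V} {l c : ℕ} (F : Fam R l c)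

/-- `K` and the vertices which see `K`: the ends of the pairs whose path meets `K` -/
def N (K : Set V) : Set V := K ∪ {x | ∃ u, F.Γ.Adj x u ∧ ∃ v ∈ F.Q s(x, u), v ∈ K}

/-- `W` is the part of a path from `v` to `K` outside `K`; it leaves by the edge `b a`, `a ∈ K` -/
structure Exit (K : Set V) (v : V) (W : Finset V) (a b : V) : Prop where
  conn : ConnOn R.G (W : Set V)
  vW : v ∈ W
  bW : b ∈ W
  aK : a ∈ K
  adj : R.G.Adj b a
  disj : ∀ w ∈ W, w ∉ K
  inQ : ∃ u, F.Γ.Adj v u ∧ (∃ w ∈ F.Q s(v, u), w ∈ K) ∧ ∀ w ∈ W, w ∈ F.Q s(v, u) ∧ w ≠ u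

/-- Assignment of the vertices to the regions at height `h`. -/
structure Asg (h c2 : ℕ) where
  β : V → Option (Set V)
  core : ∀ v K, β v = some K → R.Core h K
  mem : ∀ v K, β v = some K → v ∈ F.N K
  ex : ∀ v K, R.Core h K → v ∈ F.N K → ∃ K', β v = some K'
  few : ∀ K, R.Core h K → (univ.filter fun v => v ∈ F.N K ∧ β v ≠ some K).card ≤ c2
  one : ∀ x u K K', β x = some K → β u = some K' → x ∈ F.N K' → u ∈ F.N K → K = K'

end Fam

/-- Part A -/
def AssignStmt : Prop := ∀ l c : ℕ, ∃ c2 : ℕ, ∀ (V : Type) [Fintype V] (R : Rt V), M5 R.G → K34 R.G →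
  ∀ (F : Fam R l c) (h : ℕ), Nonempty (F.Asg h c2)

/-! ### All choices -/

/-- all choices for a family of paths -/
structure Sys {V : Type} [Fintype V] {R : Rt V} {l c : ℕ} (F : Fam R l c) (T : Tour R) (c2 : ℕ) where
  asg : ∀ j : ℕ, F.Asg (j * HH l) c2
  /-- root vertex of a region -/
  k : Set V → V
  k_mem : ∀ h K, R.Core h K → k K ∈ K ∧ R.f (k K) = h + 1
  /-- a time at which the tour is at `v` -/
  fst : V → ℕ
  fst_lt : ∀ v, fst v < T.m
  fst_own : ∀ v, T.own (fst v) = v
  /-- exits -/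
  W : Set V → V → Finset V
  ea : Set V → V → V
  eb : Set V → V → V
  exit : ∀ h K v, R.Core h K → v ∈ F.N K → v ∉ K → F.Exit K v (W K v) (ea K v) (eb K v)

namespace Sys

variable {V : Type} [Fintype V] {R : Rt V} {l c : ℕ} {F : Fam R l c} {T : Tour R} {c2 : ℕ}
  (S : Sys F T c2)

/-- the region at level `j` to which `v` is assigned -/
def β (j : ℕ) (v : V) : Option (Set V) := (S.asg j).β v

/-- rank of the time `P` in the tour which starts at the root of `K` -/
def rk (K : Set V) (P : ℕ) : ℕ := (P + T.m - S.fst (S.k K)) % T.m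

/-- own time of a vertex assigned to `K` -/
def own (K : Set V) (x : V) : ℕ := if x ∈ K then S.fst x else T.ch (S.eb K x) (S.ea K x)

/-- path from `x` to the region `K` to which it is assigned -/
def Wd (K : Set V) (x : V) : Finset V := if x ∈ K then {x} else S.W K x

/-- position of `x` at level `j` -/
def Φ (j : ℕ) (x : V) : ℕ × ℕ :=
  match S.β (j + 1) x with
  | some K' => (S.fst (S.k K'), T.m - S.rk K' (S.own K' x))
  | none => match S.β j x with
    | some K => (S.own K x, 0)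
    | none => (0, 0)

/-- the anchor of `x` at level `j` -/
def z (j : ℕ) (x : V) : V :=
  match S.β (j + 1) x with
  | some K' => S.k K'
  | none => match S.β j x with
    | some K => if x ∈ K then x else S.eb K x
    | none => x

/-- the path of `x` at level `j` -/
def w (j : ℕ) (x : V) : Finset V :=
  match S.β (j + 1) x with
  | some K' => S.Wd K' x
  | none => match S.β j x with
    | some K => S.Wd K x
    | none => {x}

/-- contraction of the child regions at level `j` -/
def im (j : ℕ) (v : V) : V := R.img S.k ((j + 1) * HH l) v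

/-- the connected set of the pair `x u` in the contracted graph -/
def A (j : ℕ) (x u : V) : Set V := {a | ∃ v, (v ∈ F.Q s(x, u) ∨ v ∈ S.w j x ∨ v ∈ S.w j u) ∧ S.im j v = a}

/-- the pair `x u` belongs to the region `K` of level `j` -/
def Lvl (j : ℕ) (K : Set V) (x u : V) : Prop := F.Γ.Adj x u ∧ S.β j x = some K ∧ S.β j u = some K ∧
  ¬ ∃ K', S.β (j + 1) x = some K' ∧ S.β (j + 1) u = some K'

/-- conflict -/
def Conf (j : ℕ) (x u y w : V) : Prop := (∃ a ∈ S.A j x u, a ∈ S.A j y w) ∨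
  (∃ a ∈ S.A j x u, R.anc a (S.z j y) ∨ R.anc a (S.z j w)) ∨
  ∃ a ∈ S.A j y w, R.anc a (S.z j x) ∨ R.anc a (S.z j u)

/-- digits of the key -/
def dig (v : V) : ℕ → ℕ
  | 0 => match S.β 0 v with
    | some K => (Fintype.equivFin (Set V) K : ℕ) + 1
    | none => 0
  | j + 1 => match S.β j v with
    | some K => if Even j then S.rk K (S.Φ j v).1 + 1 else T.m - S.rk K (S.Φ j v).1
    | none => 0

/-- the key of a vertex; the vertices are ordered by their keys -/
def key (v : V) : Lex (ℕ → ℕ) := toLex (S.dig v)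

end Sys

/-- Part O, the crossing lemma: two crossing pairs of one region are in conflict. -/
def CrossStmt : Prop := ∀ (V : Type) [Fintype V] (R : Rt V) (l c c2 : ℕ) (F : Fam R l c) (T : Tour R)
  (S : Sys F T c2) (pos : V → ℕ), (∀ x y, S.key x < S.key y → pos x < pos y) →
  ∀ (j : ℕ) (K : Set V) (x u y w : V), S.Lvl j K x u → S.Lvl j K y w →
  pos x < pos y → pos y < pos u → pos u < pos w → S.Conf j x u y w

/-- Part O: the blocks are contiguous. -/
def SandStmt : Prop := ∀ (V : Type) [Fintype V] (R : Rt V) (l c c2 : ℕ) (F : Fam R l c) (T : Tour R)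
  (S : Sys F T c2) (j : ℕ) (K : Set V) (x y u : V), S.β j x = some K → S.β j u = some K →
  S.key x ≤ S.key y → S.key y ≤ S.key u → S.β j y = some K

/-- Part L: the levels. -/
def LevStmt : Prop := ∀ (V : Type) [Fintype V] (R : Rt V) (l c c2 : ℕ) (F : Fam R l c) (T : Tour R)
  (S : Sys F T c2),
  (∀ j v K', S.β (j + 1) v = some K' → ∃ K, S.β j v = some K ∧ K' ⊆ K) ∧
  (∀ j K x u, S.Lvl j K x u → S.β (j + 2) x = none ∧ S.β (j + 2) u = none) ∧
  (∀ x u, F.Γ.Adj x u → ∃ j K, S.Lvl j K x u)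

/-- Part C: colouring of the conflicts. -/
def ColourStmt : Prop := ∀ l c c2 : ℕ, ∃ N : ℕ, 0 < N ∧ ∀ (V : Type) [Fintype V] (R : Rt V), M5 R.G →
  ∀ (F : Fam R l c) (T : Tour R) (S : Sys F T c2) (j : ℕ), ∃ φ : Sym2 V → Fin N,
  ∀ (K K' : Set V) (x u y w : V), S.Lvl j K x u → S.Lvl j K' y w → x ≠ y → x ≠ w → u ≠ y → u ≠ w →
  φ s(x, u) = φ s(y, w) → ¬ S.Conf j x u y w

/-- The main theorem for path families. -/
def FamStmt : Prop := ∀ l c : ℕ, ∃ b : ℕ, 0 < b ∧ ∀ (V : Type) [Fintype V] (R : Rt V), M5 R.G → K34 R.G →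
  Nonempty (Tour R) → ∀ F : Fam R l c, BookLE F.Γ b

/-- Part D: drawings. -/
def DrawStmt : Prop := FamStmt → TourStmt → M5Stmt → K34Stmt → SdStmt →
  ∀ k : ℕ, ∃ b : ℕ, ∀ (W : Type) [Fintype W] (G : SimpleGraph W), KPlanar k G → BookLE G b

end Pool.Agent.H.MP_c8cc4c_co.Hub
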