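import Mathlib
import Pool.Agent.H.MP_c8cc4c_co.Hub.Iface
import Pool.Agent.H.MP_c8cc4c_co.B.Near
import Pool.Agent.H.MP_c8cc4c_co.B.Conn

/-!
# MP_c8cc4c_co, full question: base file (ancestors, regions)
-/

open scoped Classical
open Finset

noncomputable section

namespace Pool.Agent.H.MP_c8cc4c_co.Hub

namespace Rt

variable {V : Type} (R : Rt V)

/-! ### ancestors -/

theorem anc_refl (a : V) : R.anc a a := ⟨0, rfl⟩

theorem anc_par (v : V) : R.anc (R.par v) v := ⟨1, rfl⟩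

theorem anc_trans {a b c : V} (h : R.anc a b) (h' : R.anc b c) : R.anc a c := by
  obtain ⟨n, hn⟩ := h
  obtain ⟨m, hm⟩ := h'
  refine ⟨n + m, ?_⟩
  rw [Function.iterate_add_apply, hm, hn]

theorem f_o : R.f R.o = 0 := (R.f_zero _).2 rfl

theorem f_par (v : V) : R.f (R.par v) = R.f v - 1 := by
  by_cases h : v = R.o
  · rw [h, R.par_o, R.f_o]
  · have := R.par_f v h
    omega

theorem f_iter (n : ℕ) (v : V) : R.f (R.par^[n] v) = R.f v - n := by
  induction n with
  | zero => simp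
  | succ n ih =>
    rw [Function.iterate_succ_apply', f_par, ih]
    omega

theorem anc_le {a v : V} (h : R.anc a v) : R.f a ≤ R.f v := by
  obtain ⟨n, rfl⟩ := h
  rw [f_iter]
  omega

theorem par_iter_o (n : ℕ) : R.par^[n] R.o = R.o := by
  induction n with
  | zero => rfl
  | succ n ih => rw [Function.iterate_succ_apply', ih, R.par_o]

/-- an ancestor which is not lower is equal -/
theorem anc_eq {a v : V} (h : R.anc a v) (hf : R.f v ≤ R.f a) : a = v := by
  obtain ⟨n, rfl⟩ := h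
  rw [f_iter] at hf
  rcases Nat.eq_zero_or_pos n with rfl | hn
  · rfl
  · have h0 : R.f v = 0 := by omega
    rw [(R.f_zero v).1 h0, par_iter_o]

theorem anc_antisymm {a b : V} (h : R.anc a b) (h' : R.anc b a) : a = b :=
  R.anc_eq h (R.anc_le h')

theorem anc_cases {a v : V} (h : R.anc a v) : a = v ∨ (v ≠ R.o ∧ R.anc a (R.par v)) := by
  obtain ⟨n, hn⟩ := h
  rcases n with _ | n
  · exact Or.inl hn.symm
  · by_cases hv : v = R.o
    · left
      rw [← hn, hv, par_iter_o]
    · exact Or.inr ⟨hv, n, by rw [← hn, Function.iterate_succ_apply]⟩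

theorem anc_of_le {a b v : V} (ha : R.anc a v) (hb : R.anc b v) (h : R.f a ≤ R.f b) :
    R.anc a b := by
  obtain ⟨n, rfl⟩ := ha
  obtain ⟨m, rfl⟩ := hb
  rcases le_or_gt m n with hmn | hmn
  · refine ⟨n - m, ?_⟩
    rw [← Function.iterate_add_apply, Nat.sub_add_cancel hmn]
  · rw [f_iter, f_iter] at h
    -- both are `o`
    have h1 : R.f v ≤ n := by omega
    have h2 : R.par^[n] v = R.o := (R.f_zero _).1 (by rw [f_iter]; omega)
    have h3 : R.par^[m] v = R.o := (R.f_zero _).1 (by rw [f_iter]; omega)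
    rw [h2, h3]
    exact R.anc_refl _

theorem anc_comp {a b v : V} (ha : R.anc a v) (hb : R.anc b v) : R.anc a b ∨ R.anc b a := by
  rcases le_total (R.f a) (R.f b) with h | h
  · exact Or.inl (R.anc_of_le ha hb h)
  · exact Or.inr (R.anc_of_le hb ha h)

theorem anc_f_inj {a b v : V} (ha : R.anc a v) (hb : R.anc b v) (h : R.f a = R.f b) : a = b :=
  R.anc_eq (R.anc_of_le ha hb h.le) h.ge

theorem anc_o (v : V) : R.anc R.o v :=
  ⟨R.f v, (R.f_zero _).1 (by rw [f_iter]; omega)⟩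

/-- few ancestors of height at least `t` -/
theorem anc_card [Fintype V] (v : V) (t : ℕ) :
    (univ.filter fun a => R.anc a v ∧ t ≤ R.f a).card ≤ R.f v + 1 - t := by
  have h : ∀ a ∈ univ.filter (fun a => R.anc a v ∧ t ≤ R.f a), R.f a ∈ Finset.Ico t (R.f v + 1) := by
    intro a ha
    rw [Finset.mem_filter] at ha
    rw [Finset.mem_Ico]
    have := R.anc_le ha.2.1
    omega
  have h2 := Finset.card_le_card_of_injOn R.f h (by
    intro a ha b hb hab
    rw [Finset.mem_coe, Finset.mem_filter] at ha hb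
    exact R.anc_f_inj ha.2.1 hb.2.1 hab)
  rwa [Nat.card_Ico] at h2

/-- the tree path -/
theorem anc_path {a v : V} (h : R.anc a v) : ∃ n, Near R.G {p | R.anc a p ∧ R.anc p v} n v a := by
  obtain ⟨n, hn⟩ := h
  induction n generalizing v with
  | zero =>
    have : v = a := hn
    subst this
    exact ⟨0, near_refl ⟨R.anc_refl _, R.anc_refl _⟩⟩
  | succ n ih =>
    by_cases hv : v = R.o
    · have : a = v := by rw [← hn, hv, par_iter_o]
      subst this
      exact ⟨0, near_refl ⟨R.anc_refl _, R.anc_refl _⟩⟩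
    · rw [Function.iterate_succ_apply] at hn
      obtain ⟨m, hm⟩ := ih hn
      have hav : R.anc a v := R.anc_trans ⟨n, hn⟩ (R.anc_par v)
      refine ⟨1 + m, near_trans (near_adj ⟨hav, R.anc_refl _⟩ ⟨⟨n, hn⟩, R.anc_par v⟩
        (R.par_adj v hv)) (near_mono hm le_rfl ?_)⟩
      rintro p ⟨hp1, hp2⟩
      exact ⟨hp1, R.anc_trans hp2 (R.anc_par v)⟩

/-- heights change by at most one -/
theorem near_f {A : Set V} {n : ℕ} {x y : V} (h : Near R.G A n x y) : R.f x ≤ R.f y + n := by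
  obtain ⟨p, hp, -⟩ := h
  have : R.f x ≤ R.f y + p.length := by
    clear hp
    induction p with
    | nil => simp
    | @cons u v w hadj q ih =>
      have := R.adj_f u v hadj
      rw [SimpleGraph.Walk.length_cons]
      omega
  omega

/-! ### regions -/

variable {R} {h : ℕ} {K K' : Set V}

theorem Core.conn (hK : R.Core h K) : ConnOn R.G K := hK.1

theorem Core.hi (hK : R.Core h K) {a : V} (ha : a ∈ K) : h < R.f a := hK.2.1 ha

theorem Core.step (hK : R.Core h K) {a b : V} (ha : a ∈ K) (hb : h < R.f b) (hab : R.G.Adj a b) :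
    b ∈ K := hK.2.2 a ha b hb hab

/-- a neighbour outside is low -/
theorem Core.low (hK : R.Core h K) {a b : V} (ha : a ∈ K) (hb : b ∉ K) (hab : R.G.Adj a b) :
    R.f b ≤ h := by
  by_contra hcon
  exact hb (hK.step ha (not_le.1 hcon) hab)

theorem Core.near (hK : R.Core h K) {n : ℕ} {x y : V} (hx : x ∈ K)
    (hn : Near R.G (R.hi h) n x y) : y ∈ K :=
  near_induct (A := R.hi h) (fun v => v ∈ K) (fun _ _ _ hv huv hu => hK.step hu hv huv) hn hx

theorem Core.eq (hK : R.Core h K) (hK' : R.Core h K') {x : V} (hx : x ∈ K) (hx' : x ∈ K') :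
    K = K' := by
  apply Set.Subset.antisymm
  · intro y hy
    obtain ⟨n, hn⟩ := hK.1.2 x hx y hy
    exact hK'.near hx' (near_mono hn le_rfl hK.2.1)
  · intro y hy
    obtain ⟨n, hn⟩ := hK'.1.2 x hx' y hy
    exact hK.near hx (near_mono hn le_rfl hK'.2.1)

theorem mem_comp {v : V} (hv : h < R.f v) : v ∈ R.comp h v := ⟨0, near_refl hv⟩

theorem comp_core {v : V} (hv : h < R.f v) : R.Core h (R.comp h v) := by
  have hsub : R.comp h v ⊆ R.hi h := fun w ⟨n, hn⟩ => near_right hn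
  have key : ∀ w n, Near R.G (R.hi h) n v w → ∃ m, Near R.G (R.comp h v) m v w := by
    intro w n hn
    refine ⟨n, near_mono (near_sub hn (B := R.comp h v) ?_) le_rfl Set.inter_subset_right⟩
    intro z hz
    exact ⟨n, hz⟩
  refine ⟨⟨⟨v, mem_comp hv⟩, ?_⟩, hsub, ?_⟩
  · rintro x ⟨n, hx⟩ y ⟨m, hy⟩
    obtain ⟨n', hx'⟩ := key x n hx
    obtain ⟨m', hy'⟩ := key y m hy
    exact ⟨n' + m', near_trans (near_symm hx') hy'⟩
  · rintro x ⟨n, hx⟩ y hy hxy
    exact ⟨n + 1, near_trans hx (near_adj (near_right hx) hy hxy)⟩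

theorem Core.comp_eq (hK : R.Core h K) {v : V} (hv : v ∈ K) : R.comp h v = K :=
  (comp_core (hK.hi hv)).eq hK (mem_comp (hK.hi hv)) hv

/-- descendants of a vertex of a region are in the region -/
theorem Core.desc (hK : R.Core h K) {a v : V} (ha : a ∈ K) (hav : R.anc a v) : v ∈ K := by
  obtain ⟨n, hn⟩ := R.anc_path hav
  refine hK.near ha (near_mono (near_symm hn) le_rfl ?_)
  rintro p ⟨hp, -⟩
  exact lt_of_lt_of_le (hK.hi ha) (R.anc_le hp)

/-- an ancestor which is not low is in the region -/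
theorem Core.up (hK : R.Core h K) {a v : V} (hv : v ∈ K) (hav : R.anc a v) (ha : h < R.f a) :
    a ∈ K := by
  obtain ⟨n, hn⟩ := R.anc_path hav
  refine hK.near hv (near_mono hn le_rfl ?_)
  rintro p ⟨hp, -⟩
  exact lt_of_lt_of_le ha (R.anc_le hp)

theorem Core.o_not (hK : R.Core h K) : R.o ∉ K := by
  intro ho
  have := hK.hi ho
  rw [R.f_o] at this
  omega

/-- a vertex outside `K` is joined to `o` outside `K` -/
theorem Core.out (hK : R.Core h K) {v : V} (hv : v ∉ K) : ∃ n, Near R.G Kᶜ n v R.o := by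
  obtain ⟨n, hn⟩ := R.anc_path (R.anc_o v)
  refine ⟨n, near_mono hn le_rfl ?_⟩
  rintro p ⟨-, hp⟩ hpK
  exact hv (hK.desc hpK hp)

theorem Core.compl (hK : R.Core h K) : ConnOn R.G Kᶜ := by
  refine ⟨⟨R.o, hK.o_not⟩, ?_⟩
  intro x hx y hy
  obtain ⟨n, hn⟩ := hK.out hx
  obtain ⟨m, hm⟩ := hK.out hy
  exact ⟨n + m, near_trans hn (near_symm hm)⟩

/-- every region is contained in a region of smaller height -/
theorem Core.sub (hK : R.Core h K) {h' : ℕ} (hh : h' ≤ h) : ∃ K', R.Core h' K' ∧ K ⊆ K' := by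
  obtain ⟨x, hx⟩ := hK.1.1
  refine ⟨R.comp h' x, comp_core (lt_of_le_of_lt hh (hK.hi hx)), ?_⟩
  intro y hy
  obtain ⟨n, hn⟩ := hK.1.2 x hx y hy
  exact ⟨n, near_mono hn le_rfl fun z hz => lt_of_le_of_lt hh (hK.hi hz)⟩

theorem Core.sub_of_mem (hK : R.Core h K) {h' : ℕ} (hh : h' ≤ h) (hK' : R.Core h' K') {x : V}
    (hx : x ∈ K) (hx' : x ∈ K') : K ⊆ K' := by
  obtain ⟨K'', h1, h2⟩ := hK.sub hh
  rwa [h1.eq hK' (h2 hx) hx'] at h2

/-- different regions are not adjacent -/
theorem Core.not_adj (hK : R.Core h K) (hK' : R.Core h K') {x y : V} (hx : x ∈ K) (hy : y ∈ K')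
    (hxy : R.G.Adj x y) : K = K' :=
  hK.eq hK' (hK.step hx (hK'.hi hy) hxy) hy

end Rt

end Pool.Agent.H.MP_c8cc4c_co.Hub
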