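import Mathlib
import Pool.Agent.H.MP_c8cc4c_co.Hub.Anc

/-!
# MP_c8cc4c_co, full question: base file about families of paths
-/

open scoped Classical
open Finset

noncomputable section

namespace Pool.Agent.H.MP_c8cc4c_co.Hub

theorem walk_sub {V : Type} {G : SimpleGraph V} {x u : V} (p : G.Walk x u) {v w : V}
    (hv : v ∈ p.support) (hw : w ∈ p.support) :
    ∃ q : G.Walk v w, q.length ≤ p.length ∧ ∀ z ∈ q.support, z ∈ p.support := by
  by_cases h : w ∈ (p.dropUntil v hv).support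
  · refine ⟨(p.dropUntil v hv).takeUntil w h, ?_, ?_⟩
    · exact ((p.dropUntil v hv).length_takeUntil_le_length h).trans (p.length_dropUntil_le_length hv)
    · intro z hz
      exact p.support_dropUntil_subset_support hv
        ((p.dropUntil v hv).support_takeUntil_subset_support h hz)
  · have h' : w ∈ (p.takeUntil v hv).support := by
      have h1 : w ∈ ((p.takeUntil v hv).append (p.dropUntil v hv)).support := by
        rw [p.take_spec hv]; exact hw
      rw [SimpleGraph.Walk.mem_support_append_iff] at h1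
      exact h1.resolve_right h
    refine ⟨((p.takeUntil v hv).dropUntil w h').reverse, ?_, ?_⟩
    · rw [SimpleGraph.Walk.length_reverse]
      exact ((p.takeUntil v hv).length_dropUntil_le_length h').trans
        (p.length_takeUntil_le_length hv)
    · intro z hz
      rw [SimpleGraph.Walk.support_reverse, List.mem_reverse] at hz
      exact p.support_takeUntil_subset_support hv
        ((p.takeUntil v hv).support_dropUntil_subset_support h' hz)

/-- first part of a walk before it enters `K` -/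
theorem walk_exit {V : Type} {G : SimpleGraph V} {v w : V} (q : G.Walk v w) (K : Set V)
    (hv : v ∉ K) (hw : w ∈ K) :
    ∃ (W : Finset V) (a b : V), ConnOn G (W : Set V) ∧ v ∈ W ∧ b ∈ W ∧ a ∈ K ∧ G.Adj b a ∧
      (∀ z ∈ W, z ∉ K ∧ z ∈ q.support) ∧ a ∈ q.support := by
  induction q with
  | nil => exact absurd hw hv
  | @cons v v' w h q ih =>
    by_cases hv' : v' ∈ K
    · refine ⟨{v}, v', v, ?_, by simp, by simp, hv', h, ?_, by simp⟩
      · rw [Finset.coe_singleton]
        exact connOn_singleton v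
      · intro z hz
        rw [Finset.mem_singleton] at hz
        subst hz
        exact ⟨hv, by simp⟩
    · obtain ⟨W, a, b, h1, h2, h3, h4, h5, h6, h7⟩ := ih hv' hw
      refine ⟨insert v W, a, b, ?_, by simp, by simp [h3], h4, h5, ?_, by simp [h7]⟩
      · rw [Finset.coe_insert, Set.insert_eq]
        exact connOn_union_adj (connOn_singleton v) h1 ⟨v, rfl, v', h2, h⟩
      · intro z hz
        rcases Finset.mem_insert.1 hz with rfl | hz
        · exact ⟨hv, by simp⟩
        · exact ⟨(h6 z hz).1, by simp [(h6 z hz).2]⟩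

namespace Fam

variable {V : Type} [Fintype V] {R : Rt V} {l c : ℕ} (F : Fam R l c) {h : ℕ} {K : Set V}
  {x u v w : V}

theorem near_Q (hxu : F.Γ.Adj x u) (hv : v ∈ F.Q s(x, u)) (hw : w ∈ F.Q s(x, u)) :
    Near R.G (F.Q s(x, u)) l v w := by
  obtain ⟨p, _, hp, hs⟩ := F.path x u hxu
  obtain ⟨q, hq, hq'⟩ := walk_sub p ((hs v).1 hv) ((hs w).1 hw)
  exact ⟨q, hq.trans hp, fun z hz => (hs z).2 (hq' z hz)⟩

theorem left_mem (hxu : F.Γ.Adj x u) : x ∈ F.Q s(x, u) := by
  obtain ⟨p, _, hp, hs⟩ := F.path x u hxu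
  exact (hs x).2 p.start_mem_support

theorem right_mem (hxu : F.Γ.Adj x u) : u ∈ F.Q s(x, u) := by
  obtain ⟨p, _, hp, hs⟩ := F.path x u hxu
  exact (hs u).2 p.end_mem_support

theorem Q_conn (hxu : F.Γ.Adj x u) : ConnOn R.G (F.Q s(x, u) : Set V) :=
  ⟨⟨x, F.left_mem hxu⟩, fun _ hv _ hw => ⟨l, F.near_Q hxu hv hw⟩⟩

theorem Q_card (hxu : F.Γ.Adj x u) : (F.Q s(x, u)).card ≤ l + 1 := by
  obtain ⟨p, _, hp, hs⟩ := F.path x u hxu
  have h1 : F.Q s(x, u) ⊆ p.support.toFinset := by
    intro v hv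
    rw [List.mem_toFinset]
    exact (hs v).1 hv
  refine (Finset.card_le_card h1).trans ((List.toFinset_card_le _).trans ?_)
  rw [SimpleGraph.Walk.length_support]
  omega

theorem Q_ne_o (hxu : F.Γ.Adj x u) (hv : v ∈ F.Q s(x, u)) : v ≠ R.o := by
  rintro rfl
  exact F.no_o x u hxu hv

/-- few paths, counted by their ends -/
theorem ends_card (v : V) :
    (univ.filter fun x => ∃ u, F.Γ.Adj x u ∧ v ∈ F.Q s(x, u) ∧ v ≠ x ∧ v ≠ u).card ≤ 2 * c := by
  have h1 : (univ.filter fun x => ∃ u, F.Γ.Adj x u ∧ v ∈ F.Q s(x, u) ∧ v ≠ x ∧ v ≠ u) ⊆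
      (univ.filter fun e : Sym2 V => e ∈ F.Γ.edgeSet ∧ v ∈ F.Q e ∧ v ∉ e).biUnion
        fun e => univ.filter fun x => x ∈ e := by
    intro x hx
    rw [Finset.mem_filter] at hx
    obtain ⟨_, u, h2, h3, h4, h5⟩ := hx
    rw [Finset.mem_biUnion]
    refine ⟨s(x, u), ?_, ?_⟩
    · rw [Finset.mem_filter]
      refine ⟨mem_univ _, h2, h3, ?_⟩
      rw [Sym2.mem_iff]
      rintro (h | h)
      · exact h4 h
      · exact h5 h
    · rw [Finset.mem_filter]
      exact ⟨mem_univ _, Sym2.mem_mk_left x u⟩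
  have h2 : ∀ e ∈ (univ.filter fun e : Sym2 V => e ∈ F.Γ.edgeSet ∧ v ∈ F.Q e ∧ v ∉ e),
      (univ.filter fun x => x ∈ e).card ≤ 2 := by
    intro e _
    induction e with
    | _ a b =>
      have : (univ.filter fun x => x ∈ s(a, b)) ⊆ ({a, b} : Finset V) := by
        intro x hx
        rw [Finset.mem_filter, Sym2.mem_iff] at hx
        rw [Finset.mem_insert, Finset.mem_singleton]
        exact hx.2
      exact (Finset.card_le_card this).trans Finset.card_le_two
  refine (Finset.card_le_card h1).trans ((Finset.card_biUnion_le_card_mul _ _ _ h2).trans ?_)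
  rw [mul_comm]
  exact Nat.mul_le_mul_left _ (F.cong v)

/-! ### `N K` -/

theorem mem_N_left (hxu : F.Γ.Adj x u) (hv : v ∈ F.Q s(x, u)) (hK : v ∈ K) : x ∈ F.N K :=
  Or.inr ⟨u, hxu, v, hv, hK⟩

theorem mem_N_right (hxu : F.Γ.Adj x u) (hv : v ∈ F.Q s(x, u)) (hK : v ∈ K) : u ∈ F.N K :=
  Or.inr ⟨x, hxu.symm, v, by rw [Sym2.eq_swap]; exact hv, hK⟩

theorem mem_N_self (hx : x ∈ K) : x ∈ F.N K := Or.inl hx

theorem N_near (hx : x ∈ F.N K) : ∃ a ∈ K, Near R.G Set.univ l x a := by
  rcases hx with hx | ⟨u, hxu, a, ha, haK⟩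
  · exact ⟨x, hx, near_mono (near_refl (Set.mem_univ _)) (Nat.zero_le _) subset_rfl⟩
  · exact ⟨a, haK, near_mono (F.near_Q hxu (F.left_mem hxu) ha) le_rfl (Set.subset_univ _)⟩

theorem N_f (hK : R.Core h K) (hx : x ∈ F.N K) : h + 1 ≤ R.f x + l := by
  obtain ⟨a, ha, hn⟩ := F.N_near hx
  have h1 := R.near_f (near_symm hn)
  have h2 := hK.hi ha
  omega

/-- A vertex which sees `K` from far away (with respect to a lower height) is in the same region. -/
theorem N_near_hi (hK : R.Core h K) (hx : x ∈ F.N K) {h' : ℕ} (hh : h' + l ≤ h) :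
    ∃ a ∈ K, Near R.G (R.hi h') l x a := by
  rcases hx with hx | ⟨u, hxu, a, ha, haK⟩
  · refine ⟨x, hx, near_mono (near_refl ?_) (Nat.zero_le _) subset_rfl⟩
    have := hK.hi hx
    change h' < R.f x
    omega
  · refine ⟨a, haK, near_mono (near_sub (F.near_Q hxu (F.left_mem hxu) ha)
      (B := R.hi h') ?_) le_rfl Set.inter_subset_right⟩
    intro z hz
    have h1 := F.near_Q hxu (near_right hz) ha
    have h2 := R.near_f (near_symm h1)
    have h3 := hK.hi haK
    change h' < R.f z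
    omega

theorem exists_exit (hv : v ∈ F.N K) (hvK : v ∉ K) : ∃ W a b, F.Exit K v W a b := by
  rcases hv with hv | ⟨u, hvu, w, hw, hwK⟩
  · exact absurd hv hvK
  obtain ⟨p, hpath, hp, hs⟩ := F.path v u hvu
  have hwp := (hs w).1 hw
  obtain ⟨W, a, b, h1, h2, h3, h4, h5, h6, h7⟩ := walk_exit (p.takeUntil w hwp) K hvK hwK
  refine ⟨W, a, b, h1, h2, h3, h4, h5, fun z hz => (h6 z hz).1, u, hvu, ⟨w, hw, hwK⟩, ?_⟩
  intro z hz
  refine ⟨(hs z).2 (p.support_takeUntil_subset_support hwp (h6 z hz).2), ?_⟩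
  rintro rfl
  by_cases hzw : w = z
  · subst hzw
    exact (h6 _ hz).1 hwK
  · exact SimpleGraph.Walk.endpoint_notMem_support_takeUntil hpath hwp (Ne.symm hzw) (h6 _ hz).2

variable {F}

theorem Exit.near {W : Finset V} {a b : V} (hE : F.Exit K v W a b) (hw : w ∈ W) :
    Near R.G Set.univ l v w := by
  obtain ⟨u, hvu, _, hW⟩ := hE.inQ
  exact near_mono (F.near_Q hvu (F.left_mem hvu) (hW w hw).1) le_rfl (Set.subset_univ _)

theorem Exit.card {W : Finset V} {a b : V} (hE : F.Exit K v W a b) : W.card ≤ l := by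
  obtain ⟨u, hvu, _, hW⟩ := hE.inQ
  have h1 : W ⊆ (F.Q s(v, u)).erase u := by
    intro w hw
    rw [Finset.mem_erase]
    exact ⟨(hW w hw).2, (hW w hw).1⟩
  have h2 := Finset.card_le_card h1
  rw [Finset.card_erase_of_mem (F.right_mem hvu)] at h2
  have := F.Q_card hvu
  omega

theorem Exit.low {W : Finset V} {a b : V} (hK : R.Core h K) (hE : F.Exit K v W a b) :
    R.f b ≤ h := hK.low hE.aK (hE.disj b hE.bW) hE.adj.symm

/-- a vertex of `W` other than `v` is an interior vertex of a path with the end `v` -/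
theorem Exit.interior {W : Finset V} {a b : V} (hE : F.Exit K v W a b) (hw : w ∈ W)
    (hne : w ≠ v) : ∃ u, F.Γ.Adj v u ∧ w ∈ F.Q s(v, u) ∧ w ≠ v ∧ w ≠ u := by
  obtain ⟨u, hvu, _, hW⟩ := hE.inQ
  exact ⟨u, hvu, (hW w hw).1, hne, (hW w hw).2⟩

end Fam

end Pool.Agent.H.MP_c8cc4c_co.Hub
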