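import Mathlib
import Pool.Agent.H.MP_c8cc4c_co.Hub.Iface

/-!
# MP_c8cc4c_co, full question: general lemmas about colourings
-/

open scoped Classical
open Finset

noncomputable section

namespace Pool.Agent.H.MP_c8cc4c_co.Hub

/-- A relation on a finite set such that every nonempty subset has an element with at most `d` neighbours
in the subset (in either direction): colouring with `d + 1` colours.
Proof: induction on the number of elements of a set `A`: for every finset `A` there is `φ` with the
property for `x, y ∈ A`. Take the element `x` with at most `d` neighbours, colour `A.erase x`, give `x` a colour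
different from its neighbours. -/
theorem col_deg {α : Type} [Fintype α] (r : α → α → Prop) (d : ℕ)
    (h : ∀ A : Finset α, A.Nonempty → ∃ x ∈ A,
      (A.filter fun y => y ≠ x ∧ (r x y ∨ r y x)).card ≤ d) :
    ∃ φ : α → Fin (d + 1), ∀ x y, x ≠ y → r x y → φ x ≠ φ y := by
  have key : ∀ (n : ℕ) (A : Finset α), A.card = n → ∃ φ : α → Fin (d + 1),
      ∀ x ∈ A, ∀ y ∈ A, x ≠ y → (r x y ∨ r y x) → φ x ≠ φ y := by
    intro n
    induction n with
    | zero =>
      intro A hA
      rw [Finset.card_eq_zero] at hA
      subst hA
      exact ⟨fun _ => 0, fun x hx => absurd hx (Finset.notMem_empty x)⟩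
    | succ n ih =>
      intro A hA
      have hne : A.Nonempty := by
        rw [← Finset.card_pos]; omega
      obtain ⟨x, hx, hd⟩ := h A hne
      obtain ⟨φ, hφ⟩ := ih (A.erase x) (by rw [Finset.card_erase_of_mem hx]; omega)
      -- a free colour
      have hfree : ∃ k : Fin (d + 1), k ∉ (A.filter fun y => y ≠ x ∧ (r x y ∨ r y x)).image φ := by
        by_contra hcon
        push Not at hcon
        have h1 : (univ : Finset (Fin (d + 1))) ⊆
            (A.filter fun y => y ≠ x ∧ (r x y ∨ r y x)).image φ := fun k _ => hcon k
        have h2 := Finset.card_le_card h1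
        rw [Finset.card_univ, Fintype.card_fin] at h2
        have h3 := Finset.card_image_le (s := A.filter fun y => y ≠ x ∧ (r x y ∨ r y x)) (f := φ)
        omega
      obtain ⟨k, hk⟩ := hfree
      refine ⟨Function.update φ x k, ?_⟩
      intro y hy z hz hyz hr
      by_cases hyx : y = x
      · subst hyx
        rw [Function.update_self, Function.update_of_ne (Ne.symm hyz)]
        intro hc
        exact hk (Finset.mem_image.2 ⟨z, Finset.mem_filter.2 ⟨hz, Ne.symm hyz, hr⟩, hc.symm⟩)
      · by_cases hzx : z = x
        · subst hzx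
          rw [Function.update_self, Function.update_of_ne hyz]
          intro hc
          exact hk (Finset.mem_image.2 ⟨y, Finset.mem_filter.2 ⟨hy, hyz, hr.symm⟩, hc⟩)
        · rw [Function.update_of_ne hyx, Function.update_of_ne hzx]
          exact hφ y (Finset.mem_erase.2 ⟨hyx, hy⟩) z (Finset.mem_erase.2 ⟨hzx, hz⟩) hyz hr
  obtain ⟨φ, hφ⟩ := key _ univ rfl
  exact ⟨φ, fun x y hxy hr => hφ x (mem_univ _) y (mem_univ _) hxy (Or.inl hr)⟩

/-- Few related pairs in every subset: an element with few neighbours. -/
theorem low_deg {α : Type} [Fintype α] (r : α → α → Prop) (d : ℕ) (A : Finset α) (hA : A.Nonempty)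
    (h : ((A ×ˢ A).filter fun q => r q.1 q.2).card ≤ d * A.card) : ∃ x ∈ A,
      (A.filter fun y => y ≠ x ∧ (r x y ∨ r y x)).card ≤ 2 * d := by
  by_contra hcon
  push Not at hcon
  -- sum over x of the number of neighbours
  have h1 : ∑ x ∈ A, (2 * d + 1) ≤ ∑ x ∈ A, (A.filter fun y => y ≠ x ∧ (r x y ∨ r y x)).card :=
    Finset.sum_le_sum fun x hx => hcon x hx
  have h2 : ∀ x, (A.filter fun y => y ≠ x ∧ (r x y ∨ r y x)).card ≤
      (A.filter fun y => r x y).card + (A.filter fun y => r y x).card := by
    intro x
    refine (Finset.card_le_card ?_).trans (Finset.card_union_le _ _)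
    intro y hy
    rw [Finset.mem_filter] at hy
    rw [Finset.mem_union, Finset.mem_filter, Finset.mem_filter]
    rcases hy.2.2 with h | h
    · exact Or.inl ⟨hy.1, h⟩
    · exact Or.inr ⟨hy.1, h⟩
  have h3 : ∑ x ∈ A, (A.filter fun y => r x y).card =
      ((A ×ˢ A).filter fun q => r q.1 q.2).card := by
    simp only [Finset.card_filter]
    rw [Finset.sum_product]
  have h4 : ∑ x ∈ A, (A.filter fun y => r y x).card =
      ((A ×ˢ A).filter fun q => r q.1 q.2).card := by
    simp only [Finset.card_filter]
    rw [Finset.sum_product_right]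
  have h5 : ∑ x ∈ A, (2 * d + 1) ≤ ∑ x ∈ A, (A.filter fun y => r x y).card +
      ∑ x ∈ A, (A.filter fun y => r y x).card := by
    rw [← Finset.sum_add_distrib]
    exact h1.trans (Finset.sum_le_sum fun x _ => h2 x)
  rw [h3, h4, Finset.sum_const, smul_eq_mul] at h5
  have h6 : 0 < A.card := Finset.card_pos.2 hA
  nlinarith

/-- Outdegree at most `d`: colouring with `2 d + 1` colours. -/
theorem col_out {α : Type} [Fintype α] (r : α → α → Prop) (d : ℕ)
    (h : ∀ x, (univ.filter fun y => r x y).card ≤ d) :
    ∃ φ : α → Fin (2 * d + 1), ∀ x y, x ≠ y → r x y → φ x ≠ φ y := by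
  refine col_deg r (2 * d) fun A hA => low_deg r d A hA ?_
  have h3 : ((A ×ˢ A).filter fun q => r q.1 q.2).card =
      ∑ x ∈ A, (A.filter fun y => r x y).card := by
    simp only [Finset.card_filter]
    rw [Finset.sum_product]
  rw [h3]
  refine (Finset.sum_le_card_nsmul _ _ d fun x _ => ?_).trans (by rw [smul_eq_mul, mul_comm])
  exact (Finset.card_le_card (Finset.filter_subset_filter _ (Finset.subset_univ _))).trans (h x)

/-- Every nonempty subset has an element with at most `d` neighbours in the subset: an order (rank function)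
such that every element has at most `d` neighbours of smaller rank.
Proof: induction: the element `x` of `A` with few neighbours gets the largest rank. -/
theorem order_deg {α : Type} [Fintype α] (r : α → α → Prop) (d : ℕ)
    (h : ∀ A : Finset α, A.Nonempty → ∃ x ∈ A,
      (A.filter fun y => y ≠ x ∧ (r x y ∨ r y x)).card ≤ d) :
    ∃ rk : α → ℕ, Function.Injective rk ∧
      ∀ x, (univ.filter fun y => rk y < rk x ∧ (r x y ∨ r y x)).card ≤ d := by
  have key : ∀ (n : ℕ) (A : Finset α), A.card = n → ∃ rk : α → ℕ,
      (∀ x ∈ A, ∀ y ∈ A, rk x = rk y → x = y) ∧ (∀ x ∈ A, rk x < n) ∧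
      ∀ x ∈ A, (A.filter fun y => rk y < rk x ∧ (r x y ∨ r y x)).card ≤ d := by
    intro n
    induction n with
    | zero =>
      intro A hA
      rw [Finset.card_eq_zero] at hA
      subst hA
      exact ⟨fun _ => 0, fun x hx => absurd hx (Finset.notMem_empty x),
        fun x hx => absurd hx (Finset.notMem_empty x), fun x hx => absurd hx (Finset.notMem_empty x)⟩
    | succ n ih =>
      intro A hA
      have hne : A.Nonempty := by
        rw [← Finset.card_pos]; omega
      obtain ⟨x, hx, hd⟩ := h A hne
      obtain ⟨rk, h1, h2, h3⟩ := ih (A.erase x) (by rw [Finset.card_erase_of_mem hx]; omega)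
      have hup : ∀ y ∈ A, y ≠ x → Function.update rk x n y = rk y ∧ rk y < n := by
        intro y hy hyx
        exact ⟨Function.update_of_ne hyx _ _, h2 y (Finset.mem_erase.2 ⟨hyx, hy⟩)⟩
      have hself : Function.update rk x n x = n := Function.update_self _ _ _
      refine ⟨Function.update rk x n, ?_, ?_, ?_⟩
      · intro y hy z hz hyz
        by_cases hyx : y = x
        · by_cases hzx : z = x
          · rw [hyx, hzx]
          · have := hup z hz hzx
            rw [hyx, hself, this.1] at hyz
            omega
        · by_cases hzx : z = x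
          · have := hup y hy hyx
            rw [hzx, hself, this.1] at hyz
            omega
          · rw [(hup y hy hyx).1, (hup z hz hzx).1] at hyz
            exact h1 y (Finset.mem_erase.2 ⟨hyx, hy⟩) z (Finset.mem_erase.2 ⟨hzx, hz⟩) hyz
      · intro y hy
        by_cases hyx : y = x
        · rw [hyx, hself]; omega
        · have := hup y hy hyx
          rw [this.1]; omega
      · intro y hy
        by_cases hyx : y = x
        · subst hyx
          refine (Finset.card_le_card ?_).trans hd
          intro z hz
          rw [Finset.mem_filter] at hz ⊢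
          refine ⟨hz.1, ?_, hz.2.2⟩
          rintro rfl
          exact absurd hz.2.1 (lt_irrefl _)
        · refine (Finset.card_le_card ?_).trans (h3 y (Finset.mem_erase.2 ⟨hyx, hy⟩))
          intro z hz
          rw [Finset.mem_filter] at hz ⊢
          have e1 := hup y hy hyx
          by_cases hzx : z = x
          · rw [hzx, hself, e1.1] at hz
            omega
          · rw [(hup z hz.1 hzx).1, e1.1] at hz
            exact ⟨Finset.mem_erase.2 ⟨hzx, hz.1⟩, hz.2⟩
  obtain ⟨rk, h1, _, h3⟩ := key _ univ rfl
  exact ⟨rk, fun x y hxy => h1 x (mem_univ _) y (mem_univ _) hxy,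
    fun x => h3 x (mem_univ _)⟩

/-- Double counting: every element of `B` is hit by at most `c` elements, the set of `x` has at most `m`
elements, so `x` meets at most `m * c` others. -/
theorem meet_card {α β : Type} [Fintype α] (S : Finset β) (P : β → α → Prop) (m c : ℕ)
    (hS : S.card ≤ m) (h : ∀ b ∈ S, (univ.filter fun y => P b y).card ≤ c) :
    (univ.filter fun y => ∃ b ∈ S, P b y).card ≤ m * c := by
  have h1 : (univ.filter fun y => ∃ b ∈ S, P b y) ⊆ S.biUnion fun b => univ.filter fun y => P b y := by
    intro y hy
    rw [Finset.mem_filter] at hy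
    obtain ⟨_, b, hb, hP⟩ := hy
    rw [Finset.mem_biUnion]
    exact ⟨b, hb, Finset.mem_filter.2 ⟨mem_univ _, hP⟩⟩
  refine (Finset.card_le_card h1).trans ((Finset.card_biUnion_le_card_mul _ _ _ h).trans ?_)
  exact Nat.mul_le_mul_right _ hS

end Pool.Agent.H.MP_c8cc4c_co.Hub
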