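import Mathlib
import Pool.Agent.H.MP_c8cc4c_co.Hub.Iface

/-!
# MP_c8cc4c_co, full question: the planar lemma

A tree with non crossing chords, seen from a tour around the tree. Two disjoint connected sets which are
attached to crossing pairs of times: a vertex of one of them is an ancestor of the owner of one of the
times of the other.
-/

open scoped Classical
open Finset

noncomputable section

namespace Pool.Agent.H.MP_c8cc4c_co.Hub

/-- a tree with chords, seen from a tour -/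
structure TS (V Pt : Type) [LinearOrder Pt] where
  /-- valid times -/
  ok : Pt → Prop
  own : Pt → V
  anc : V → V → Prop
  ch : Pt → Pt → Prop
  refl : ∀ a, anc a a
  antisymm : ∀ a b, anc a b → anc b a → a = b
  ch_symm : ∀ P Q, ch P Q → ch Q P
  ch_ok : ∀ P Q, ch P Q → ok P
  conv : ∀ a P Q R, P < Q → Q < R → ok P → ok Q → ok R → anc a (own P) → anc a (own R) →
    anc a (own Q)
  nc : ∀ P Q R S, ch P Q → ch R S → ¬ (P < R ∧ R < Q ∧ Q < S)

namespace TS

variable {V Pt : Type} [LinearOrder Pt] (T : TS V Pt)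

/-- a step in `A` -/
def Stp (A : Set V) (P Q : Pt) : Prop := T.ok P ∧ T.ok Q ∧ T.own P ∈ A ∧ T.own Q ∈ A ∧
  (T.own P = T.own Q ∨ T.ch P Q)

/-- `A` is connected -/
def Cn (A : Set V) : Prop := ∀ P Q, T.ok P → T.ok Q → T.own P ∈ A → T.own Q ∈ A →
  Relation.ReflTransGen (T.Stp A) P Q

/-- the time `P` is attached to `A` -/
def Att (A : Set V) (P : Pt) : Prop := T.ok P ∧ (T.own P ∈ A ∨ ∃ Q, T.ch P Q ∧ T.own Q ∈ A)

/-- side of `R` with respect to `P` -/
def sd (P R : Pt) : ZMod 2 := if R < P then 1 else 0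

/-- a general step: chord, or same owner in `A` -/
def GStp (A : Set V) (y w : Pt) (P Q : Pt) : Prop :=
  (T.ch P Q ∧ (T.own P ∈ A ∨ P = y ∨ P = w) ∧ (T.own Q ∈ A ∨ Q = y ∨ Q = w)) ∨
    (T.ok P ∧ T.ok Q ∧ T.own P ∈ A ∧ T.own P = T.own Q)

theorem sd_sep (P Q R : Pt) (h : sd P R ≠ sd Q R) (h1 : R ≠ P) (h2 : R ≠ Q) :
    (P < R ∧ R < Q) ∨ (Q < R ∧ R < P) := by
  unfold sd at h
  rcases lt_or_ge R P with h3 | h3
  · rcases lt_or_ge R Q with h4 | h4
    · simp [h3, h4] at h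
    · exact Or.inr ⟨lt_of_le_of_ne h4 (Ne.symm h2), h3⟩
  · rcases lt_or_ge R Q with h4 | h4
    · exact Or.inl ⟨lt_of_le_of_ne h3 (Ne.symm h1), h4⟩
    · simp [not_lt.2 h3, not_lt.2 h4] at h

/-- if `P, Q` and `R, R'` are separated by each other then they interleave -/
theorem sep_inter (P Q R R' : Pt) (h : sd P R + sd P R' ≠ sd Q R + sd Q R')
    (h1 : R ≠ P) (h2 : R ≠ Q) (h3 : R' ≠ P) (h4 : R' ≠ Q) :
    ((P < R ∧ R < Q ∧ Q < R') ∨ (R' < P ∧ P < R ∧ R < Q) ∨
      (Q < R ∧ R < P ∧ P < R') ∨ (R' < Q ∧ Q < R ∧ R < P)) ∨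
    ((P < R' ∧ R' < Q ∧ Q < R) ∨ (R < P ∧ P < R' ∧ R' < Q) ∨
      (Q < R' ∧ R' < P ∧ P < R) ∨ (R < Q ∧ Q < R' ∧ R' < P)) := by
  have e1 : (R < P ∨ P < R) := lt_or_gt_of_ne h1
  have e2 : (R < Q ∨ Q < R) := lt_or_gt_of_ne h2
  have e3 : (R' < P ∨ P < R') := lt_or_gt_of_ne h3
  have e4 : (R' < Q ∨ Q < R') := lt_or_gt_of_ne h4
  unfold sd at h
  rcases e1 with e1 | e1 <;> rcases e2 with e2 | e2 <;> rcases e3 with e3 | e3 <;>
    rcases e4 with e4 | e4 <;>
    simp only [e1, e2, e3, e4, if_true, if_neg (not_lt.2 (le_of_lt e1)),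
      if_neg (not_lt.2 (le_of_lt e2)), if_neg (not_lt.2 (le_of_lt e3)),
      if_neg (not_lt.2 (le_of_lt e4)), ne_eq, not_true_eq_false] at h <;>
    simp_all
  · exact absurd (by decide) h
  · exact absurd (by decide) h

/-- sum of the sides over a list of pairs -/
def tot (L : List (Pt × Pt)) (P : Pt) : ZMod 2 := (L.map fun q => sd P q.1 + sd P q.2).sum

theorem tot_cons (q : Pt × Pt) (L : List (Pt × Pt)) (P : Pt) :
    tot (q :: L) P = sd P q.1 + sd P q.2 + tot L P := by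
  simp [tot]

theorem tot_congr (L : List (Pt × Pt)) (P Q : Pt)
    (h : ∀ q ∈ L, sd P q.1 + sd P q.2 = sd Q q.1 + sd Q q.2) : tot L P = tot L Q := by
  induction L with
  | nil => rfl
  | cons q L ih =>
    rw [tot_cons, tot_cons, h q (by simp), ih fun r hr => h r (by simp [hr])]

theorem tot_zero (L : List (Pt × Pt)) (P : Pt)
    (h : ∀ q ∈ L, sd P q.1 + sd P q.2 = 0) : tot L P = 0 := by
  induction L with
  | nil => rfl
  | cons q L ih =>
    rw [tot_cons, h q (by simp), ih fun r hr => h r (by simp [hr]), zero_add]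

/-- decomposition of a walk into its chords and its jumps at one owner -/
theorem dec (A : Set V) (y w a b : Pt) (h : Relation.ReflTransGen (T.GStp A y w) a b) :
    ∃ C O : List (Pt × Pt),
      (∀ q ∈ C, T.ch q.1 q.2 ∧ (T.own q.1 ∈ A ∨ q.1 = y ∨ q.1 = w) ∧
        (T.own q.2 ∈ A ∨ q.2 = y ∨ q.2 = w)) ∧
      (∀ q ∈ O, T.ok q.1 ∧ T.ok q.2 ∧ T.own q.1 ∈ A ∧ T.own q.1 = T.own q.2) ∧
      ∀ P, sd P a + sd P b = tot C P + tot O P := by
  induction h with
  | refl =>
    refine ⟨[], [], by simp, by simp, fun P => ?_⟩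
    simp [tot, CharTwo.add_self_eq_zero]
  | @tail b c _ hbc ih =>
    obtain ⟨C, O, hC, hO, hs⟩ := ih
    have key : ∀ P, sd P a + sd P c = sd P a + sd P b + (sd P b + sd P c) := by
      intro P
      have : sd P b + sd P b = (0 : ZMod 2) := CharTwo.add_self_eq_zero _
      linear_combination -this
    rcases hbc with hbc | hbc
    · refine ⟨(b, c) :: C, O, ?_, hO, fun P => ?_⟩
      · intro q hq
        rcases List.mem_cons.1 hq with rfl | hq
        · exact hbc
        · exact hC q hq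
      · rw [key, hs, tot_cons]; ring
    · refine ⟨C, (b, c) :: O, hC, ?_, fun P => ?_⟩
      · intro q hq
        rcases List.mem_cons.1 hq with rfl | hq
        · exact hbc
        · exact hO q hq
      · rw [key, hs, tot_cons]; ring

/-- a walk in `A` between two attached times -/
theorem walk (A : Set V) (hA : T.Cn A) (y w : Pt) (hy : T.Att A y) (hw : T.Att A w) :
    Relation.ReflTransGen (T.GStp A y w) y w := by
  -- general: steps are general steps
  have hmono : ∀ P Q, Relation.ReflTransGen (T.Stp A) P Q →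
      Relation.ReflTransGen (T.GStp A y w) P Q := by
    intro P Q h
    induction h with
    | refl => exact Relation.ReflTransGen.refl
    | tail _ h ih =>
      refine ih.tail ?_
      obtain ⟨h1, h2, h3, h4, h5 | h5⟩ := h
      · exact Or.inr ⟨h1, h2, h3, h5⟩
      · exact Or.inl ⟨h5, Or.inl h3, Or.inl h4⟩
  -- start
  have h1 : ∃ y', T.ok y' ∧ T.own y' ∈ A ∧ Relation.ReflTransGen (T.GStp A y w) y y' := by
    obtain ⟨h0, h | ⟨Q, hQ, hQA⟩⟩ := hy
    · exact ⟨y, h0, h, Relation.ReflTransGen.refl⟩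
    · exact ⟨Q, T.ch_ok _ _ (T.ch_symm _ _ hQ), hQA,
        Relation.ReflTransGen.single (Or.inl ⟨hQ, Or.inr (Or.inl rfl), Or.inl hQA⟩)⟩
  have h2 : ∃ w', T.ok w' ∧ T.own w' ∈ A ∧ Relation.ReflTransGen (T.GStp A y w) w' w := by
    obtain ⟨h0, h | ⟨Q, hQ, hQA⟩⟩ := hw
    · exact ⟨w, h0, h, Relation.ReflTransGen.refl⟩
    · exact ⟨Q, T.ch_ok _ _ (T.ch_symm _ _ hQ), hQA,
        Relation.ReflTransGen.single (Or.inl ⟨T.ch_symm _ _ hQ, Or.inl hQA, Or.inr (Or.inr rfl)⟩)⟩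
  obtain ⟨y', hy1, hy2, hy3⟩ := h1
  obtain ⟨w', hw1, hw2, hw3⟩ := h2
  exact (hy3.trans (hmono _ _ (hA y' w' hy1 hw1 hy2 hw2))).trans hw3

/-- the planar lemma -/
theorem PL (A A' : Set V) (hd : ∀ a ∈ A, a ∉ A') (hA : T.Cn A) (hA' : T.Cn A') (x y u w : Pt)
    (hx : T.Att A x) (hu : T.Att A u) (hy : T.Att A' y) (hw : T.Att A' w)
    (h1 : ∀ a ∈ A, ¬ T.anc a (T.own y) ∧ ¬ T.anc a (T.own w))
    (h2 : ∀ a ∈ A', ¬ T.anc a (T.own x) ∧ ¬ T.anc a (T.own u)) :
    ¬ (x < y ∧ y < u ∧ u < w) := by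
  rintro ⟨hxy, hyu, huw⟩
  obtain ⟨C, O, hC, hO, hs⟩ := T.dec A' y w y w (T.walk A' hA' y w hy hw)
  have hwalk := T.walk A hA x u hx hu
  -- all the times are different
  have hne : ∀ P R, (T.own P ∈ A ∨ P = x ∨ P = u) → (T.own R ∈ A' ∨ R = y ∨ R = w) → R ≠ P := by
    rintro P R (hP | rfl | rfl) (hR | rfl | rfl) rfl
    · exact hd _ hP hR
    · exact (h1 _ hP).1 (T.refl _)
    · exact (h1 _ hP).2 (T.refl _)
    · exact (h2 _ hR).1 (T.refl _)
    · exact absurd hxy (lt_irrefl _)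
    · exact absurd (hxy.trans (hyu.trans huw)) (lt_irrefl _)
    · exact (h2 _ hR).2 (T.refl _)
    · exact absurd hyu (lt_irrefl _)
    · exact absurd huw (lt_irrefl _)
  -- the chord part does not change along the walk
  have hstep : ∀ P Q, T.GStp A x u P Q → tot C P = tot C Q := by
    rintro P Q (⟨hch, hP, hQ⟩ | ⟨hPok, hQok, hPA, hPQ⟩)
    · refine tot_congr C P Q fun q hq => ?_
      obtain ⟨hq1, hq2, hq3⟩ := hC q hq
      by_contra hcon
      have hch' := T.ch_symm _ _ hch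
      have hq1' := T.ch_symm _ _ hq1
      rcases sep_inter P Q q.1 q.2 hcon (hne P _ hP hq2) (hne Q _ hQ hq2) (hne P _ hP hq3)
        (hne Q _ hQ hq3) with (h | h | h | h) | (h | h | h | h)
      · exact T.nc _ _ _ _ hch hq1 h
      · exact T.nc _ _ _ _ hq1' hch h
      · exact T.nc _ _ _ _ hch' hq1 h
      · exact T.nc _ _ _ _ hq1' hch' h
      · exact T.nc _ _ _ _ hch hq1' h
      · exact T.nc _ _ _ _ hq1 hch h
      · exact T.nc _ _ _ _ hch' hq1' h
      · exact T.nc _ _ _ _ hq1 hch' h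
    · have hQA : T.own Q ∈ A := hPQ ▸ hPA
      -- total
      have htot : sd P y + sd P w = sd Q y + sd Q w := by
        have e1 : sd P y = sd Q y := by
          by_contra hcon
          rcases sd_sep P Q y hcon (hne P _ (Or.inl hPA) (Or.inr (Or.inl rfl)))
            (hne Q _ (Or.inl hQA) (Or.inr (Or.inl rfl))) with h | h
          · exact (h1 _ hPA).1 (T.conv _ P y Q h.1 h.2 hPok hy.1 hQok (T.refl _)
              (hPQ ▸ T.refl _))
          · exact (h1 _ hPA).1 (T.conv _ Q y P h.1 h.2 hQok hy.1 hPok (hPQ ▸ T.refl _)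
              (T.refl _))
        have e2 : sd P w = sd Q w := by
          by_contra hcon
          rcases sd_sep P Q w hcon (hne P _ (Or.inl hPA) (Or.inr (Or.inr rfl)))
            (hne Q _ (Or.inl hQA) (Or.inr (Or.inr rfl))) with h | h
          · exact (h1 _ hPA).2 (T.conv _ P w Q h.1 h.2 hPok hw.1 hQok (T.refl _)
              (hPQ ▸ T.refl _))
          · exact (h1 _ hPA).2 (T.conv _ Q w P h.1 h.2 hQok hw.1 hPok (hPQ ▸ T.refl _)
              (T.refl _))
        rw [e1, e2]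
      have hOO : tot O P = tot O Q := by
        refine tot_congr O P Q fun q hq => ?_
        obtain ⟨hq1, hq2, hq3, hq4⟩ := hO q hq
        have hq3' : T.own q.2 ∈ A' := hq4 ▸ hq3
        by_contra hcon
        -- owner of q between P and Q
        have c1 : ∀ R, T.ok R → T.own R = T.own q.1 → (P < R ∧ R < Q ∨ Q < R ∧ R < P) →
            T.anc (T.own P) (T.own q.1) := by
          rintro R hR hR' (h | h)
          · rw [← hR']; exact T.conv _ P R Q h.1 h.2 hPok hR hQok (T.refl _) (hPQ ▸ T.refl _)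
          · rw [← hR']; exact T.conv _ Q R P h.1 h.2 hQok hR hPok (hPQ ▸ T.refl _) (T.refl _)
        have c2 : ∀ R, T.ok R → T.own R = T.own P → (q.1 < R ∧ R < q.2 ∨ q.2 < R ∧ R < q.1) →
            T.anc (T.own q.1) (T.own P) := by
          rintro R hR hR' (h | h)
          · rw [← hR']; exact T.conv _ q.1 R q.2 h.1 h.2 hq1 hR hq2 (T.refl _) (hq4 ▸ T.refl _)
          · rw [← hR']; exact T.conv _ q.2 R q.1 h.1 h.2 hq2 hR hq1 (hq4 ▸ T.refl _) (T.refl _)
        have hfin : T.anc (T.own P) (T.own q.1) → T.anc (T.own q.1) (T.own P) → False := by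
          intro h3 h4
          have := T.antisymm _ _ h3 h4
          exact hd _ hPA (this ▸ hq3)
        rcases sep_inter P Q q.1 q.2 hcon (hne P _ (Or.inl hPA) (Or.inl hq3))
          (hne Q _ (Or.inl hQA) (Or.inl hq3)) (hne P _ (Or.inl hPA) (Or.inl hq3'))
          (hne Q _ (Or.inl hQA) (Or.inl hq3')) with (h | h | h | h) | (h | h | h | h)
        · exact hfin (c1 q.1 hq1 rfl (Or.inl ⟨h.1, h.2.1⟩))
            (c2 Q hQok hPQ.symm (Or.inl ⟨h.2.1, h.2.2⟩))
        · exact hfin (c1 q.1 hq1 rfl (Or.inl ⟨h.2.1, h.2.2⟩))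
            (c2 P hPok rfl (Or.inr ⟨h.1, h.2.1⟩))
        · exact hfin (c1 q.1 hq1 rfl (Or.inr ⟨h.1, h.2.1⟩))
            (c2 P hPok rfl (Or.inl ⟨h.2.1, h.2.2⟩))
        · exact hfin (c1 q.1 hq1 rfl (Or.inr ⟨h.2.1, h.2.2⟩))
            (c2 Q hQok hPQ.symm (Or.inr ⟨h.1, h.2.1⟩))
        · exact hfin (c1 q.2 hq2 hq4.symm (Or.inl ⟨h.1, h.2.1⟩))
            (c2 Q hQok hPQ.symm (Or.inr ⟨h.2.1, h.2.2⟩))
        · exact hfin (c1 q.2 hq2 hq4.symm (Or.inl ⟨h.2.1, h.2.2⟩))
            (c2 P hPok rfl (Or.inl ⟨h.1, h.2.1⟩))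
        · exact hfin (c1 q.2 hq2 hq4.symm (Or.inr ⟨h.1, h.2.1⟩))
            (c2 P hPok rfl (Or.inr ⟨h.2.1, h.2.2⟩))
        · exact hfin (c1 q.2 hq2 hq4.symm (Or.inr ⟨h.2.1, h.2.2⟩))
            (c2 Q hQok hPQ.symm (Or.inl ⟨h.1, h.2.1⟩))
      have e3 := hs P
      have e4 := hs Q
      rw [htot, e4, hOO] at e3
      exact (add_right_cancel e3).symm
  have hconst : ∀ P, Relation.ReflTransGen (T.GStp A x u) x P → tot C x = tot C P := by
    intro P hP
    induction hP with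
    | refl => rfl
    | tail _ h ih => rw [ih, hstep _ _ h]
  -- the jumps do not contain x, u
  have hzero : ∀ P, T.ok P → (P = x ∨ P = u) → (∀ a ∈ A', ¬ T.anc a (T.own P)) → tot O P = 0 := by
    intro P hP hP1 hP2
    refine tot_zero O P fun q hq => ?_
    obtain ⟨hq1, hq2, hq3, hq4⟩ := hO q hq
    have hq3' : T.own q.2 ∈ A' := hq4 ▸ hq3
    by_contra hcon
    have hne1 : q.1 ≠ P := hne P _ (Or.inr hP1) (Or.inl hq3)
    have hne2 : q.2 ≠ P := hne P _ (Or.inr hP1) (Or.inl hq3')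
    rcases lt_or_gt_of_ne hne1 with e1 | e1 <;> rcases lt_or_gt_of_ne hne2 with e2 | e2
    · apply hcon
      simp only [sd, e1, e2, if_true]
      decide
    · exact hP2 _ hq3 (T.conv _ q.1 P q.2 e1 e2 hq1 hP hq2 (T.refl _) (hq4 ▸ T.refl _))
    · exact hP2 _ hq3 (T.conv _ q.2 P q.1 e2 e1 hq2 hP hq1 (hq4 ▸ T.refl _) (T.refl _))
    · apply hcon
      simp only [sd, if_neg (not_lt.2 (le_of_lt e1)), if_neg (not_lt.2 (le_of_lt e2))]
      decide
  have hxO := hzero x hx.1 (Or.inl rfl) fun a ha => (h2 a ha).1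
  have huO := hzero u hu.1 (Or.inr rfl) fun a ha => (h2 a ha).2
  have e5 := hs x
  have e6 := hs u
  rw [hxO, add_zero] at e5
  rw [huO, add_zero, ← hconst u hwalk, ← e5] at e6
  simp only [sd, hyu, if_true, if_neg (not_lt.2 (le_of_lt huw)), if_neg (not_lt.2 (le_of_lt hxy)),
    if_neg (not_lt.2 (le_of_lt (hxy.trans (hyu.trans huw))))] at e6
  exact absurd e6 (by decide)

end TS

end Pool.Agent.H.MP_c8cc4c_co.Hub
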