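import Mathlib
import Pool.Agent.H.MP_c8cc4c_co.Hub.PL
import Pool.Agent.H.MP_c8cc4c_co.Hub.Anc

/-!
# MP_c8cc4c_co, full question: the contracted tour, definitions

`Tour.ts`: the tour as a `TS`. `Cdat`: the regions at height `h` are contracted to their root vertices
`k K`; the times are pairs `(P, s)` in lexicographic order: `(P, 0)` for a time `P` with a low owner, and
`(fst (k K), s)`.
-/

open scoped Classical
open Finset

noncomputable section

namespace Pool.Agent.H.MP_c8cc4c_co.Hub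

variable {V : Type} {R : Rt V}

/-- the tour as a `TS` -/
def Tour.ts (T : Tour R) : TS V ℕ where
  ok t := t < T.m
  own := T.own
  anc := R.anc
  ch P Q := ∃ u v, R.G.Adj u v ∧ P = T.ch u v ∧ Q = T.ch v u
  refl := R.anc_refl
  antisymm _ _ := R.anc_antisymm
  ch_symm := by
    rintro P Q ⟨u, v, h, h1, h2⟩
    exact ⟨v, u, h.symm, h2, h1⟩
  ch_ok := by
    rintro P Q ⟨u, v, h, h1, h2⟩
    rw [h1]
    exact T.ch_lt _ _ h
  conv := by
    intro a P Q S h1 h2 _ _ h5 h6 h7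
    exact T.conv a P Q S h1 h2 h5 h6 h7
  nc := by
    rintro P Q A B ⟨u, v, h, rfl, rfl⟩ ⟨x, y, h', rfl, rfl⟩
    exact T.nc u v x y h h'

/-- data for the contraction -/
structure Cdat (T : Tour R) (h : ℕ) where
  /-- root vertex of a region -/
  k : Set V → V
  k_mem : ∀ K, R.Core h K → k K ∈ K ∧ R.f (k K) = h + 1
  fst : V → ℕ
  fst_lt : ∀ v, fst v < T.m
  fst_own : ∀ v, T.own (fst v) = v

namespace Cdat

variable {T : Tour R} {h : ℕ} (D : Cdat T h)

/-- rank of the time `P` in the tour which starts at the root of `K` -/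
def rk (K : Set V) (P : ℕ) : ℕ := (P + T.m - D.fst (D.k K)) % T.m

/-- the time of the contracted region which belongs to the time `P` -/
def up (K : Set V) (P : ℕ) : ℕ ×ₗ ℕ := toLex (D.fst (D.k K), T.m - D.rk K P)

/-- valid times -/
def ok (p : ℕ ×ₗ ℕ) : Prop :=
  ((ofLex p).2 = 0 ∧ (ofLex p).1 < T.m ∧ R.f (T.own (ofLex p).1) ≤ h) ∨
    ∃ K, R.Core h K ∧ (ofLex p).1 = D.fst (D.k K)

/-- chords between a low vertex and a region -/
def chr (p q : ℕ ×ₗ ℕ) : Prop := ∃ K a b, R.Core h K ∧ a ∈ K ∧ b ∉ K ∧ R.G.Adj a b ∧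
  p = D.up K (T.ch b a) ∧ q = toLex (T.ch b a, 0)

/-- chords -/
def ch (p q : ℕ ×ₗ ℕ) : Prop :=
  (∃ u v, R.G.Adj u v ∧ R.f u ≤ h ∧ R.f v ≤ h ∧ p = toLex (T.ch u v, 0) ∧
    q = toLex (T.ch v u, 0)) ∨ D.chr p q ∨ D.chr q p

theorem lt_iff (p q : ℕ ×ₗ ℕ) : p < q ↔ (ofLex p).1 < (ofLex q).1 ∨
    ((ofLex p).1 = (ofLex q).1 ∧ (ofLex p).2 < (ofLex q).2) := by
  exact Prod.Lex.lt_iff

theorem rk_lt (K : Set V) (P : ℕ) (hP : P < T.m) : D.rk K P < T.m :=
  Nat.mod_lt _ (lt_of_le_of_lt (Nat.zero_le _) hP)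

/-- rank of a time which is not the start -/
theorem rk_eq (K : Set V) (P : ℕ) (hP : P < T.m) :
    (D.fst (D.k K) ≤ P ∧ D.rk K P = P - D.fst (D.k K)) ∨
      (P < D.fst (D.k K) ∧ D.rk K P = P + T.m - D.fst (D.k K)) := by
  have h1 := D.fst_lt (D.k K)
  rcases le_or_gt (D.fst (D.k K)) P with h2 | h2
  · left
    refine ⟨h2, ?_⟩
    unfold rk
    rw [show P + T.m - D.fst (D.k K) = (P - D.fst (D.k K)) + T.m by omega, Nat.add_mod_right,
      Nat.mod_eq_of_lt (by omega)]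
  · right
    refine ⟨h2, ?_⟩
    unfold rk
    rw [Nat.mod_eq_of_lt (by omega)]

theorem fst_ne {K : Set V} (hK : R.Core h K) {b a : V} (hb : b ∉ K) (hab : R.G.Adj b a) :
    D.fst (D.k K) ≠ T.ch b a := by
  intro h1
  apply hb
  have h2 := D.fst_own (D.k K)
  rw [h1, T.own_ch _ _ hab] at h2
  rw [h2]
  exact (D.k_mem K hK).1

end Cdat

end Pool.Agent.H.MP_c8cc4c_co.Hub
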