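import Mathlib
import Pool.Agent.H.MP_c8cc4c_co.Hub.C0

/-!
# MP_c8cc4c_co, full question: low chords and chords of a region do not cross
-/

open scoped Classical
open Finset

noncomputable section

namespace Pool.Agent.H.MP_c8cc4c_co.Hub

namespace Cdat

variable {V : Type} {R : Rt V} {T : Tour R} {h : ℕ} (D : Cdat T h)

/-- A low chord does not separate the times of a region.
Proof. `near_induct` for the property `P v`: for all `t, t' < T.m`, `own t = a`, `own t' = v`: the
equivalence. (The vertices `a`, `a'` are joined by a walk in `K`: `hK.conn.2`.)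
Same vertex (also the start `v = a`): suppose `t`, `t'` have the same owner `v ∈ K`, and exactly one of them is
strictly between `ch u v0` and `ch v0 u` (call the low edge `u v0`). Then `ch u v0` or `ch v0 u` is weakly
between `t` and `t'`; it is not equal to `t` or `t'` since its owner `u` (or `v0`) is low and `v ∈ K` is not
(`Core.hi`). So it is strictly between, and by `T.conv` (with `a := v`, `anc_refl`) its owner is a descendant of `v`,
so in `K` (`Core.desc`), so high. Contradiction.
Adjacent vertices `v, v'` of `K`: choose `s = ch v v'` and `s' = ch v' v`; they are on the same side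
by `T.nc` (applied to the edges `u v0` and `v v'` / `v' v`, in both orders; `s, s'` are different from `ch u v0`
and `ch v0 u` because the owners are different); then use the same vertex case twice. -/
theorem side {K : Set V} (hK : R.Core h K) {u v : V} (huv : R.G.Adj u v) (hu : R.f u ≤ h)
    (hv : R.f v ≤ h) {a a' : V} (ha : a ∈ K) (ha' : a' ∈ K) {t t' : ℕ} (ht : t < T.m)
    (ht' : t' < T.m) (h1 : T.own t = a) (h2 : T.own t' = a') (hlt : T.ch u v < T.ch v u) :
    (T.ch u v < t ∧ t < T.ch v u) ↔ (T.ch u v < t' ∧ t' < T.ch v u) := by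
  have o1 := T.own_ch _ _ huv
  have o2 := T.own_ch _ _ huv.symm
  have l1 := T.ch_lt _ _ huv
  have l2 := T.ch_lt _ _ huv.symm
  -- a low time is not between two times of a vertex of K
  have low : ∀ z ∈ K, ∀ s s' p, s < T.m → s' < T.m → T.own s = z → T.own s' = z →
      R.f (T.own p) ≤ h → s < p → p < s' → False := by
    intro z hz s s' p _ hs' h3 h4 hp h5 h6
    have h7 := T.conv z s p s' h5 h6 hs' (by rw [h3]; exact R.anc_refl _)
      (by rw [h4]; exact R.anc_refl _)
    have := hK.hi (hK.desc hz h7)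
    omega
  have lowne : ∀ z ∈ K, ∀ s p, T.own s = z → R.f (T.own p) ≤ h → s ≠ p := by
    rintro z hz s p h3 h4 rfl
    rw [h3] at h4
    have := hK.hi hz
    omega
  have f1 : R.f (T.own (T.ch u v)) ≤ h := by rw [o1]; exact hu
  have f2 : R.f (T.own (T.ch v u)) ≤ h := by rw [o2]; exact hv
  have same : ∀ z ∈ K, ∀ s s', s < T.m → s' < T.m → T.own s = z → T.own s' = z →
      ((T.ch u v < s ∧ s < T.ch v u) ↔ (T.ch u v < s' ∧ s' < T.ch v u)) := by
    intro z hz s s' h3 h4 h5 h6
    have a1 := low z hz s s' _ h3 h4 h5 h6 f1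
    have a2 := low z hz s s' _ h3 h4 h5 h6 f2
    have a3 := low z hz s' s _ h4 h3 h6 h5 f1
    have a4 := low z hz s' s _ h4 h3 h6 h5 f2
    have b1 := lowne z hz s _ h5 f1
    have b2 := lowne z hz s _ h5 f2
    have b3 := lowne z hz s' _ h6 f1
    have b4 := lowne z hz s' _ h6 f2
    constructor
    · rintro ⟨c1, c2⟩
      constructor
      · by_contra hc
        exact a3 (by omega) (by omega)
      · by_contra hc
        exact a2 (by omega) (by omega)
    · rintro ⟨c1, c2⟩
      constructor
      · by_contra hc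
        exact a1 (by omega) (by omega)
      · by_contra hc
        exact a4 (by omega) (by omega)
  obtain ⟨n, hn⟩ := hK.conn.2 a ha a' ha'
  refine near_induct (A := K) (fun z => ∀ s', s' < T.m → T.own s' = z →
    ((T.ch u v < t ∧ t < T.ch v u) ↔ (T.ch u v < s' ∧ s' < T.ch v u))) ?_ hn ?_ t' ht' h2
  · intro x z hx hz hxz ih s' hs' hs'z
    have e1 := ih (T.ch x z) (T.ch_lt _ _ hxz) (T.own_ch _ _ hxz)
    have e3 := same z hz (T.ch z x) s' (T.ch_lt _ _ hxz.symm) hs' (T.own_ch _ _ hxz.symm) hs'z
    rw [e1, ← e3]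
    have b1 := lowne x hx (T.ch x z) _ (T.own_ch _ _ hxz) f1
    have b2 := lowne x hx (T.ch x z) _ (T.own_ch _ _ hxz) f2
    have b3 := lowne z hz (T.ch z x) _ (T.own_ch _ _ hxz.symm) f1
    have b4 := lowne z hz (T.ch z x) _ (T.own_ch _ _ hxz.symm) f2
    have n1 := T.nc u v x z huv hxz
    have n2 := T.nc u v z x huv hxz.symm
    have n3 := T.nc x z u v hxz huv
    have n4 := T.nc z x u v hxz.symm huv
    constructor
    · rintro ⟨c1, c2⟩
      by_contra hc
      rcases lt_or_ge (T.ch u v) (T.ch z x) with c3 | c3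
      · exact n1 ⟨c1, c2, by omega⟩
      · exact n4 ⟨by omega, c1, c2⟩
    · rintro ⟨c1, c2⟩
      by_contra hc
      rcases lt_or_ge (T.ch u v) (T.ch x z) with c3 | c3
      · exact n2 ⟨c1, c2, by omega⟩
      · exact n3 ⟨by omega, c1, c2⟩
  · intro s' hs' hs'z
    exact same a ha t s' ht hs' h1 hs'z

/-- A low chord does not cross a chord of a region.
Proof. Let `K, a, b` be from `chr`: the ends of the region chord are `D.up K (ch b a)`, whose first coordinate is
`F = fst (k K)` with owner `k K ∈ K`, and `(ch b a, 0)`. Compare first coordinates (`lt_iff`). `F` is different from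
`ch u v`, `ch v u` (owners). If `(ch b a, 0)` is strictly between / outside then so is `ch b a` with respect
to the numbers `ch u v < ch v u` (all the second coordinates are 0). So exactly one of `F`, `ch b a` is strictly between
`ch u v` and `ch v u` and the other one is strictly outside. By `side` (for `F` and `ch a b`, owner `a ∈ K`)
`ch a b` is on the side of `F`. So the edges `a b` and `u v` cross: contradiction to `T.nc`. -/
theorem nc1 {u v : V} (huv : R.G.Adj u v) (hu : R.f u ≤ h) (hv : R.f v ≤ h) (p q : ℕ ×ₗ ℕ)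
    (hpq : D.chr p q ∨ D.chr q p) :
    ¬ (toLex (T.ch u v, 0) < p ∧ p < toLex (T.ch v u, 0) ∧ toLex (T.ch v u, 0) < q) ∧
    ¬ (p < toLex (T.ch u v, 0) ∧ toLex (T.ch u v, 0) < q ∧ q < toLex (T.ch v u, 0)) := by
  have main : ∀ K a b, R.Core h K → a ∈ K → b ∉ K → R.G.Adj a b → T.ch u v < T.ch v u →
      ((T.ch u v < D.fst (D.k K) ∧ D.fst (D.k K) < T.ch v u) →
        (T.ch b a < T.ch u v ∨ T.ch v u < T.ch b a) → False) ∧
      ((D.fst (D.k K) < T.ch u v ∨ T.ch v u < D.fst (D.k K)) →
        (T.ch u v < T.ch b a ∧ T.ch b a < T.ch v u) → False) ∧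
      D.fst (D.k K) ≠ T.ch u v ∧ D.fst (D.k K) ≠ T.ch v u := by
    intro K a b hK ha hb hab hlt
    have e1 := side hK huv hu hv (D.k_mem K hK).1 ha (D.fst_lt _) (T.ch_lt _ _ hab)
      (D.fst_own _) (T.own_ch _ _ hab) hlt
    have n1 := T.nc u v a b huv hab
    have n2 := T.nc u v b a huv hab.symm
    have n3 := T.nc a b u v hab huv
    have n4 := T.nc b a u v hab.symm huv
    have c1 : T.ch a b ≠ T.ch u v := by
      intro hc
      have := T.own_ch _ _ hab
      rw [hc, T.own_ch _ _ huv] at this
      rw [this] at hu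
      have := hK.hi ha
      omega
    have c2 : T.ch a b ≠ T.ch v u := by
      intro hc
      have := T.own_ch _ _ hab
      rw [hc, T.own_ch _ _ huv.symm] at this
      rw [this] at hv
      have := hK.hi ha
      omega
    refine ⟨?_, ?_, ?_, ?_⟩
    · intro h1 h2
      obtain ⟨h3, h4⟩ := e1.1 h1
      rcases h2 with h2 | h2
      · exact n4 ⟨h2, h3, h4⟩
      · exact n1 ⟨h3, h4, h2⟩
    · rintro h1 ⟨h2, h3⟩
      have h4 : ¬ (T.ch u v < T.ch a b ∧ T.ch a b < T.ch v u) := by
        intro hc
        have := e1.2 hc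
        omega
      rcases lt_or_ge (T.ch u v) (T.ch a b) with h5 | h5
      · exact n2 ⟨h2, h3, by omega⟩
      · exact n3 ⟨by omega, h2, h3⟩
    · intro hc
      have h3 := D.fst_own (D.k K)
      rw [hc, T.own_ch _ _ huv] at h3
      have := hK.hi (D.k_mem K hK).1
      rw [← h3] at this
      omega
    · intro hc
      have h3 := D.fst_own (D.k K)
      rw [hc, T.own_ch _ _ huv.symm] at h3
      have := hK.hi (D.k_mem K hK).1
      rw [← h3] at this
      omega
  constructor
  · rintro ⟨e1, e2, e3⟩
    rw [lt_iff] at e1 e2 e3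
    rcases hpq with ⟨K, a, b, hK, ha, hb, hab, rfl, rfl⟩ | ⟨K, a, b, hK, ha, hb, hab, rfl, rfl⟩ <;>
      simp only [up, ofLex_toLex] at e1 e2 e3 <;>
      · obtain ⟨m1, m2, m3, m4⟩ := main K a b hK ha hb hab (by omega)
        first
          | exact m1 ⟨by omega, by omega⟩ (by omega)
          | exact m2 (by omega) ⟨by omega, by omega⟩
  · rintro ⟨e1, e2, e3⟩
    rw [lt_iff] at e1 e2 e3
    rcases hpq with ⟨K, a, b, hK, ha, hb, hab, rfl, rfl⟩ | ⟨K, a, b, hK, ha, hb, hab, rfl, rfl⟩ <;>
      simp only [up, ofLex_toLex] at e1 e2 e3 <;>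
      · obtain ⟨m1, m2, m3, m4⟩ := main K a b hK ha hb hab (by omega)
        first
          | exact m1 ⟨by omega, by omega⟩ (by omega)
          | exact m2 (by omega) ⟨by omega, by omega⟩

end Cdat

end Pool.Agent.H.MP_c8cc4c_co.Hub
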