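import Mathlib
import Pool.Agent.H.MP_c8cc4c_co.Hub.C0

/-!
# MP_c8cc4c_co, full question: chords of different regions do not cross
-/

open scoped Classical
open Finset

noncomputable section

namespace Pool.Agent.H.MP_c8cc4c_co.Hub

namespace Cdat

variable {V : Type} {R : Rt V} {T : Tour R} {h : ℕ} (D : Cdat T h)

/-- A connected set is connected in the tour.
Proof. `T.ts.Cn X`: for `P, Q` with owners in `X`: a walk in `X` from `own P` to `own Q`. Induction
(`near_induct` with the property: every time `Q < T.m` of the vertex is reached from `P`): an edge `u v` of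
the walk: `P'` (any time of `u`) to `ch u v` (same owner), `ch u v` to `ch v u` (chord), then to any time
of `v` (same owner). -/
theorem conn_ts (T : Tour R) (X : Set V) (hX : ConnOn R.G X) : T.ts.Cn X := by
  intro P Q hP hQ hPX hQX
  obtain ⟨n, hn⟩ := hX.2 _ hPX _ hQX
  have main : ∀ Q', T.ts.ok Q' → T.ts.own Q' = T.own Q →
      Relation.ReflTransGen (T.ts.Stp X) P Q' := by
    refine near_induct (A := X) (fun z => ∀ Q', T.ts.ok Q' → T.ts.own Q' = z →
      Relation.ReflTransGen (T.ts.Stp X) P Q') ?_ hn ?_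
    · intro u v hu hv huv ih Q' hQ' hQv
      have c : T.ts.ch (T.ch u v) (T.ch v u) := ⟨u, v, huv, rfl, rfl⟩
      have o1 : T.ts.own (T.ch u v) = u := T.own_ch _ _ huv
      have o2 : T.ts.own (T.ch v u) = v := T.own_ch _ _ huv.symm
      refine ((ih (T.ch u v) (T.ch_lt _ _ huv) o1).tail
        ⟨T.ch_lt _ _ huv, T.ch_lt _ _ huv.symm, o1.symm ▸ hu, o2.symm ▸ hv, Or.inr c⟩).tail
        ⟨T.ch_lt _ _ huv.symm, hQ', o2.symm ▸ hv, hQv.symm ▸ hv, Or.inl (by rw [o2, hQv])⟩
    · intro Q' hQ' hQx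
      exact Relation.ReflTransGen.single ⟨hP, hQ', hPX, hQx.symm ▸ hPX, Or.inl hQx.symm⟩
  exact main Q hQ rfl

/-- Chords of different regions do not cross.
Proof. Suppose `p < r < q < s`. First coordinates: one of `p, q` has first coordinate `F = fst (k K)` (owner `k K ∈ K`), the
other one `ch b a` (owner `b`, `f b ≤ h` by `Core.low`), one of `r, s` has `F' = fst (k K')` (owner `k K' ∈ K'`) and
the other one `ch b' a'` (owner `b'`, low). `F ≠ F'` since `K, K'` are disjoint (`Core.eq`); `F` and `F'` are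
different from `ch b a`, `ch b' a'` (owners high / low). `ch b a` and `ch b' a'` have second coordinate 0, so as
they are strictly comparable as pairs, they are different. So the first coordinates
satisfy `p.1 < r.1 < q.1 < s.1` (`lt_iff`; every consecutive pair has different first coordinates). Now apply
`T.ts.PL` with `A = K`, `A' = K'` (`conn_ts`, `Core.conn`): `F` is attached to `K` (its owner is in `K`), `ch b a` is
attached to `K` (chord to `ch a b` with owner `a`), the same for `K'`. No `x ∈ K` is an ancestor of `k K'`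
(`Core.desc`: `k K'` would be in `K`) or of `b'` (`b'` would be in `K` and high, but it is low), and
conversely. -/
theorem nc2 {K K' : Set V} (hK : R.Core h K) (hK' : R.Core h K') (hne : K ≠ K') {a b a' b' : V}
    (ha : a ∈ K) (hb : b ∉ K) (hab : R.G.Adj a b) (ha' : a' ∈ K') (hb' : b' ∉ K')
    (hab' : R.G.Adj a' b') (p q r s : ℕ ×ₗ ℕ)
    (hpq : (p = D.up K (T.ch b a) ∧ q = toLex (T.ch b a, 0)) ∨
      (q = D.up K (T.ch b a) ∧ p = toLex (T.ch b a, 0)))
    (hrs : (r = D.up K' (T.ch b' a') ∧ s = toLex (T.ch b' a', 0)) ∨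
      (s = D.up K' (T.ch b' a') ∧ r = toLex (T.ch b' a', 0))) :
    ¬ (p < r ∧ r < q ∧ q < s) := by
  have hF := D.fst_lt (D.k K)
  have hF' := D.fst_lt (D.k K')
  have hkK := (D.k_mem K hK).1
  have hkK' := (D.k_mem K' hK').1
  have oF := D.fst_own (D.k K)
  have oF' := D.fst_own (D.k K')
  have hy := T.ch_lt _ _ hab.symm
  have hy' := T.ch_lt _ _ hab'.symm
  have oy := T.own_ch _ _ hab.symm
  have oy' := T.own_ch _ _ hab'.symm
  have fb := hK.low ha hb hab
  have fb' := hK'.low ha' hb' hab'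
  have fk := hK.hi hkK
  have fk' := hK'.hi hkK'
  -- the first coordinates are different
  have n1 : D.fst (D.k K) ≠ D.fst (D.k K') := by
    intro hc
    apply hne
    rw [hc, oF'] at oF
    exact hK.eq hK' (oF ▸ hkK) hkK'
  have n2 : D.fst (D.k K) ≠ T.ch b' a' := by
    intro hc
    rw [hc, oy'] at oF
    rw [← oF] at fk
    omega
  have n3 : D.fst (D.k K') ≠ T.ch b a := by
    intro hc
    rw [hc, oy] at oF'
    rw [← oF'] at fk'
    omega
  -- attached times
  have A1 : T.ts.Att K (D.fst (D.k K)) := ⟨hF, Or.inl (by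
    change T.own _ ∈ K
    rw [oF]
    exact hkK)⟩
  have A2 : T.ts.Att K (T.ch b a) := ⟨hy, Or.inr ⟨T.ch a b, ⟨b, a, hab.symm, rfl, rfl⟩, by
    change T.own _ ∈ K
    rw [T.own_ch _ _ hab]
    exact ha⟩⟩
  have A3 : T.ts.Att K' (D.fst (D.k K')) := ⟨hF', Or.inl (by
    change T.own _ ∈ K'
    rw [oF']
    exact hkK')⟩
  have A4 : T.ts.Att K' (T.ch b' a') := ⟨hy', Or.inr ⟨T.ch a' b', ⟨b', a', hab'.symm, rfl, rfl⟩, by
    change T.own _ ∈ K'
    rw [T.own_ch _ _ hab']
    exact ha'⟩⟩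
  -- no ancestors
  have B1 : ∀ x ∈ K, ¬ R.anc x (T.own (D.fst (D.k K'))) := by
    intro x hx hc
    rw [oF'] at hc
    exact hne (hK.eq hK' (hK.desc hx hc) hkK')
  have B2 : ∀ x ∈ K, ¬ R.anc x (T.own (T.ch b' a')) := by
    intro x hx hc
    rw [oy'] at hc
    have := hK.hi (hK.desc hx hc)
    omega
  have B3 : ∀ x ∈ K', ¬ R.anc x (T.own (D.fst (D.k K))) := by
    intro x hx hc
    rw [oF] at hc
    exact hne (hK.eq hK' hkK (hK'.desc hx hc))
  have B4 : ∀ x ∈ K', ¬ R.anc x (T.own (T.ch b a)) := by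
    intro x hx hc
    rw [oy] at hc
    have := hK'.hi (hK'.desc hx hc)
    omega
  have hdis : ∀ x ∈ K, x ∉ K' := fun x hx hx' => hne (hK.eq hK' hx hx')
  have C1 := conn_ts T K hK.conn
  have C2 := conn_ts T K' hK'.conn
  rintro ⟨e1, e2, e3⟩
  rw [lt_iff] at e1 e2 e3
  unfold up at hpq hrs
  rcases hpq with ⟨rfl, rfl⟩ | ⟨rfl, rfl⟩ <;> rcases hrs with ⟨rfl, rfl⟩ | ⟨rfl, rfl⟩ <;>
    simp only [ofLex_toLex] at e1 e2 e3
  · exact T.ts.PL K K' hdis C1 C2 _ _ _ _ A1 A2 A3 A4 (fun a ha => ⟨B1 a ha, B2 a ha⟩)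
      (fun a ha => ⟨B3 a ha, B4 a ha⟩) ⟨by omega, by omega, by omega⟩
  · exact T.ts.PL K K' hdis C1 C2 _ _ _ _ A1 A2 A4 A3 (fun a ha => ⟨B2 a ha, B1 a ha⟩)
      (fun a ha => ⟨B3 a ha, B4 a ha⟩) ⟨by omega, by omega, by omega⟩
  · exact T.ts.PL K K' hdis C1 C2 _ _ _ _ A2 A1 A3 A4 (fun a ha => ⟨B1 a ha, B2 a ha⟩)
      (fun a ha => ⟨B4 a ha, B3 a ha⟩) ⟨by omega, by omega, by omega⟩
  · exact T.ts.PL K K' hdis C1 C2 _ _ _ _ A2 A1 A4 A3 (fun a ha => ⟨B2 a ha, B1 a ha⟩)
      (fun a ha => ⟨B4 a ha, B3 a ha⟩) ⟨by omega, by omega, by omega⟩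

end Cdat

end Pool.Agent.H.MP_c8cc4c_co.Hub
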