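import Mathlib
import Pool.Agent.H.MP_c8cc4c_co.Hub.C0

/-!
# MP_c8cc4c_co, full question: chords of one region do not cross
-/

open scoped Classical
open Finset

noncomputable section

namespace Pool.Agent.H.MP_c8cc4c_co.Hub

namespace Cdat

variable {V : Type} {R : Rt V} {T : Tour R} {h : ℕ} (D : Cdat T h)

/-- Chords of one region do not cross.
Proof. Let `F = fst (k K) < m`, `y = ch b a < m`, `y' = ch b' a' < m`, `y, y' ≠ F` (`fst_ne`). The chords are
`(F, m - rk y) - (y, 0)` and `(F, m - rk y') - (y', 0)`, where (`rk_eq`) `rk y = y - F` if `y > F` (so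
`m - rk y = m - y + F > F`) and `rk y = y + m - F` if `y < F` (so `m - rk y = F - y`, between 1 and `F`). Unfold
`lt_iff` and use `omega` in all cases (order of `p, q`, order of `r, s`, `y < F` or `y > F`, `y' < F` or
`y' > F`): `y < F`, `y' < F`: nested; `y > F`, `y' > F`: nested; `y < F < y'`: disjoint. -/
theorem nc3 {K : Set V} (hK : R.Core h K) {a b a' b' : V}
    (ha : a ∈ K) (hb : b ∉ K) (hab : R.G.Adj a b) (ha' : a' ∈ K) (hb' : b' ∉ K)
    (hab' : R.G.Adj a' b') (p q r s : ℕ ×ₗ ℕ)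
    (hpq : (p = D.up K (T.ch b a) ∧ q = toLex (T.ch b a, 0)) ∨
      (q = D.up K (T.ch b a) ∧ p = toLex (T.ch b a, 0)))
    (hrs : (r = D.up K (T.ch b' a') ∧ s = toLex (T.ch b' a', 0)) ∨
      (s = D.up K (T.ch b' a') ∧ r = toLex (T.ch b' a', 0))) :
    ¬ (p < r ∧ r < q ∧ q < s) := by
  have hF := D.fst_lt (D.k K)
  have hy := T.ch_lt _ _ hab.symm
  have hy' := T.ch_lt _ _ hab'.symm
  have hne := D.fst_ne hK hb hab.symm
  have hne' := D.fst_ne hK hb' hab'.symm
  have r1 := D.rk_eq K _ hy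
  have r2 := D.rk_eq K _ hy'
  rintro ⟨e1, e2, e3⟩
  rw [lt_iff] at e1 e2 e3
  unfold up at hpq hrs
  generalize D.fst (D.k K) = F at *
  generalize T.ch b a = y at *
  generalize T.ch b' a' = y' at *
  generalize D.rk K y = ry at *
  generalize D.rk K y' = ry' at *
  rcases hpq with ⟨rfl, rfl⟩ | ⟨rfl, rfl⟩ <;> rcases hrs with ⟨rfl, rfl⟩ | ⟨rfl, rfl⟩ <;>
    simp only [ofLex_toLex] at e1 e2 e3 <;> omega

end Cdat

end Pool.Agent.H.MP_c8cc4c_co.Hub
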