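import Mathlib
import Pool.Agent.H.MP_c8cc4c_co.Hub.C0
import Pool.Agent.H.MP_c8cc4c_co.Hub.C1
import Pool.Agent.H.MP_c8cc4c_co.Hub.C2
import Pool.Agent.H.MP_c8cc4c_co.Hub.C3

/-!
# MP_c8cc4c_co, full question: the contracted tour
-/

open scoped Classical
open Finset

noncomputable section

namespace Pool.Agent.H.MP_c8cc4c_co.Hub

namespace Cdat

variable {V : Type} {R : Rt V} {T : Tour R} {h : ℕ} (D : Cdat T h)

theorem ok_fst {p : ℕ ×ₗ ℕ} (hp : D.ok p) : (ofLex p).1 < T.m := by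
  rcases hp with h1 | ⟨K, _, h1⟩
  · exact h1.2.1
  · rw [h1]; exact D.fst_lt _

theorem ok_ch {p q : ℕ ×ₗ ℕ} (hp : D.ch p q) : D.ok p := by
  rcases hp with ⟨u, v, h1, h2, h3, rfl, rfl⟩ | ⟨K, a, b, hK, ha, hb, hab, rfl, rfl⟩ |
    ⟨K, a, b, hK, ha, hb, hab, rfl, rfl⟩
  · refine Or.inl ⟨rfl, T.ch_lt _ _ h1, ?_⟩
    change R.f (T.own (T.ch u v)) ≤ h
    rw [T.own_ch _ _ h1]
    exact h2
  · exact Or.inr ⟨K, hK, rfl⟩
  · refine Or.inl ⟨rfl, T.ch_lt _ _ hab.symm, ?_⟩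
    change R.f (T.own (T.ch b a)) ≤ h
    rw [T.own_ch _ _ hab.symm]
    exact hK.low ha hb hab

theorem conv_tsc (a : V) (P Q S : ℕ ×ₗ ℕ) (h1 : P < Q) (h2 : Q < S) (hS : D.ok S)
    (h3 : R.anc a (T.own (ofLex P).1)) (h4 : R.anc a (T.own (ofLex S).1)) :
    R.anc a (T.own (ofLex Q).1) := by
  rw [lt_iff] at h1 h2
  rcases h1 with h1 | h1
  · rcases h2 with h2 | h2
    · exact T.conv a _ _ _ h1 h2 (D.ok_fst hS) h3 h4
    · rw [h2.1]; exact h4
  · rw [← h1.1]; exact h3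

theorem nc_tsc (P Q A B : ℕ ×ₗ ℕ) (h1 : D.ch P Q) (h2 : D.ch A B) :
    ¬ (P < A ∧ A < Q ∧ Q < B) := by
  rcases h1 with ⟨u, v, huv, hu, hv, rfl, rfl⟩ | h1
  · rcases h2 with ⟨x, y, hxy, hx, hy, rfl, rfl⟩ | h2
    · rintro ⟨e1, e2, e3⟩
      rw [lt_iff] at e1 e2 e3
      change T.ch u v < T.ch x y ∨ (T.ch u v = T.ch x y ∧ 0 < 0) at e1
      change T.ch x y < T.ch v u ∨ (T.ch x y = T.ch v u ∧ 0 < 0) at e2
      change T.ch v u < T.ch y x ∨ (T.ch v u = T.ch y x ∧ 0 < 0) at e3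
      exact T.nc u v x y huv hxy ⟨by omega, by omega, by omega⟩
    · exact (D.nc1 huv hu hv A B h2).1
  · rcases h2 with ⟨x, y, hxy, hx, hy, rfl, rfl⟩ | h2
    · exact (D.nc1 hxy hx hy P Q h1).2
    · have key : ∀ p q, (D.chr p q ∨ D.chr q p) → ∃ K a b, R.Core h K ∧ a ∈ K ∧ b ∉ K ∧
          R.G.Adj a b ∧ ((p = D.up K (T.ch b a) ∧ q = toLex (T.ch b a, 0)) ∨
          (q = D.up K (T.ch b a) ∧ p = toLex (T.ch b a, 0))) := by
        rintro p q (⟨K, a, b, hK, ha, hb, hab, h5, h6⟩ | ⟨K, a, b, hK, ha, hb, hab, h5, h6⟩)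
        · exact ⟨K, a, b, hK, ha, hb, hab, Or.inl ⟨h5, h6⟩⟩
        · exact ⟨K, a, b, hK, ha, hb, hab, Or.inr ⟨h5, h6⟩⟩
      obtain ⟨K, a, b, hK, ha, hb, hab, hPQ⟩ := key P Q h1
      obtain ⟨K', a', b', hK', ha', hb', hab', hAB⟩ := key A B h2
      by_cases hKK : K = K'
      · subst hKK
        exact D.nc3 hK ha hb hab ha' hb' hab' P Q A B hPQ hAB
      · exact D.nc2 hK hK' hKK ha hb hab ha' hb' hab' P Q A B hPQ hAB

/-- the contracted tour -/
def tsc : TS V (ℕ ×ₗ ℕ) where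
  ok := D.ok
  own p := T.own (ofLex p).1
  anc := R.anc
  ch := D.ch
  refl := R.anc_refl
  antisymm _ _ := R.anc_antisymm
  ch_symm := by
    rintro p q (⟨u, v, h1, h2, h3, h4, h5⟩ | h1 | h1)
    · exact Or.inl ⟨v, u, h1.symm, h3, h2, h5, h4⟩
    · exact Or.inr (Or.inr h1)
    · exact Or.inr (Or.inl h1)
  ch_ok _ _ := D.ok_ch
  conv a P Q S h1 h2 _ _ h5 h6 h7 := D.conv_tsc a P Q S h1 h2 h5 h6 h7
  nc P Q A B h1 h2 := D.nc_tsc P Q A B h1 h2

theorem chord_up {K : Set V} (hK : R.Core h K) {a b : V} (ha : a ∈ K) (hb : b ∉ K)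
    (hab : R.G.Adj a b) : D.tsc.ch (D.up K (T.ch b a)) (toLex (T.ch b a, 0)) :=
  Or.inr (Or.inl ⟨K, a, b, hK, ha, hb, hab, rfl, rfl⟩)

theorem ok_low {P : ℕ} (hP : P < T.m) (hf : R.f (T.own P) ≤ h) : D.tsc.ok (toLex (P, 0)) :=
  Or.inl ⟨rfl, hP, hf⟩

theorem ok_up {K : Set V} (hK : R.Core h K) (s : ℕ) : D.tsc.ok (toLex (D.fst (D.k K), s)) :=
  Or.inr ⟨K, hK, rfl⟩

/-- owner of a valid time: a low vertex or a root -/
theorem own_img {p : ℕ ×ₗ ℕ} (hp : D.tsc.ok p) : R.img D.k h (D.tsc.own p) = D.tsc.own p := by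
  rcases hp with ⟨_, _, h2⟩ | ⟨K, hK, h2⟩
  · exact if_pos h2
  · have h3 : D.tsc.own p = D.k K := by
      change T.own (ofLex p).1 = _
      rw [h2, D.fst_own]
    rw [h3]
    unfold Rt.img
    rw [if_neg (by rw [(D.k_mem K hK).2]; omega), hK.comp_eq (D.k_mem K hK).1]

/-- the image of a connected set is connected in the contracted tour -/
theorem conn_img (X : Set V) (hX : ConnOn R.G X) : D.tsc.Cn (R.img D.k h '' X) := by
  intro P Q hP hQ hPX hQX
  obtain ⟨x, hx, hx1⟩ := hPX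
  obtain ⟨y, hy, hy1⟩ := hQX
  obtain ⟨n, hn⟩ := hX.2 x hx y hy
  have same : ∀ P Q, D.tsc.ok P → D.tsc.ok Q → D.tsc.own P ∈ R.img D.k h '' X →
      D.tsc.own P = D.tsc.own Q → Relation.ReflTransGen (D.tsc.Stp (R.img D.k h '' X)) P Q := by
    intro P Q h1 h2 h3 h4
    exact Relation.ReflTransGen.single ⟨h1, h2, h3, h4 ▸ h3, Or.inl h4⟩
  have main : ∀ Q, D.tsc.ok Q → D.tsc.own Q = R.img D.k h y →
      Relation.ReflTransGen (D.tsc.Stp (R.img D.k h '' X)) P Q := by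
    refine near_induct (A := X) (fun z => ∀ Q, D.tsc.ok Q → D.tsc.own Q = R.img D.k h z →
      Relation.ReflTransGen (D.tsc.Stp (R.img D.k h '' X)) P Q) ?_ hn ?_
    · intro u v hu hv huv ih Q hQ hQv
      have hIu : R.img D.k h u ∈ R.img D.k h '' X := ⟨u, hu, rfl⟩
      have hIv : R.img D.k h v ∈ R.img D.k h '' X := ⟨v, hv, rfl⟩
      -- a chord or the same image
      have hstep : R.img D.k h u = R.img D.k h v ∨ ∃ A B, D.tsc.ok A ∧ D.tsc.ok B ∧
          D.tsc.ch A B ∧ D.tsc.own A = R.img D.k h u ∧ D.tsc.own B = R.img D.k h v := by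
        by_cases hfu : R.f u ≤ h
        · by_cases hfv : R.f v ≤ h
          · right
            have c : D.tsc.ch (toLex (T.ch u v, 0)) (toLex (T.ch v u, 0)) :=
              Or.inl ⟨u, v, huv, hfu, hfv, rfl, rfl⟩
            refine ⟨_, _, D.tsc.ch_ok _ _ c, D.tsc.ch_ok _ _ (D.tsc.ch_symm _ _ c), c, ?_, ?_⟩
            · change T.own (T.ch u v) = _
              rw [T.own_ch _ _ huv, Rt.img, if_pos hfu]
            · change T.own (T.ch v u) = _
              rw [T.own_ch _ _ huv.symm, Rt.img, if_pos hfv]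
          · right
            have hK := Rt.comp_core (R := R) (not_le.1 hfv)
            have hvK := Rt.mem_comp (R := R) (not_le.1 hfv)
            have huK : u ∉ R.comp h v := fun hc => hfu.not_gt (hK.hi hc)
            have c := D.chord_up hK hvK huK huv.symm
            refine ⟨_, _, D.tsc.ch_ok _ _ (D.tsc.ch_symm _ _ c), D.tsc.ch_ok _ _ c,
              D.tsc.ch_symm _ _ c, ?_, ?_⟩
            · change T.own (T.ch u v) = _
              rw [T.own_ch _ _ huv, Rt.img, if_pos hfu]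
            · change T.own (D.fst (D.k (R.comp h v))) = _
              rw [D.fst_own, Rt.img, if_neg hfv]
        · by_cases hfv : R.f v ≤ h
          · right
            have hK := Rt.comp_core (R := R) (not_le.1 hfu)
            have huK := Rt.mem_comp (R := R) (not_le.1 hfu)
            have hvK : v ∉ R.comp h u := fun hc => hfv.not_gt (hK.hi hc)
            have c := D.chord_up hK huK hvK huv
            refine ⟨_, _, D.tsc.ch_ok _ _ c, D.tsc.ch_ok _ _ (D.tsc.ch_symm _ _ c), c, ?_, ?_⟩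
            · change T.own (D.fst (D.k (R.comp h u))) = _
              rw [D.fst_own, Rt.img, if_neg hfu]
            · change T.own (T.ch v u) = _
              rw [T.own_ch _ _ huv.symm, Rt.img, if_pos hfv]
          · left
            have hK := Rt.comp_core (R := R) (not_le.1 hfu)
            have huK := Rt.mem_comp (R := R) (not_le.1 hfu)
            have hvK := hK.step huK (not_le.1 hfv) huv
            rw [Rt.img, Rt.img, if_neg hfu, if_neg hfv, hK.comp_eq hvK]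
      rcases hstep with he | ⟨A, B, hA, hB, hAB, hAo, hBo⟩
      · exact ih Q hQ (by rw [hQv, he])
      · refine ((ih A hA hAo).tail ⟨hA, hB, hAo ▸ hIu, hBo ▸ hIv, Or.inr hAB⟩).trans
          (same B Q hB hQ (hBo ▸ hIv) (by rw [hBo, hQv]))
    · intro Q hQ hQx
      exact same P Q hP hQ (hx1 ▸ ⟨x, hx, rfl⟩) (by rw [← hx1, hQx])
  exact main Q hQ hy1.symm

end Cdat

end Pool.Agent.H.MP_c8cc4c_co.Hub
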