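import Mathlib
import Pool.Agent.H.MP_c8cc4c_co.Hub.FamB

/-!
# MP_c8cc4c_co, full question, part L: the levels
-/

open scoped Classical
open Finset

noncomputable section

namespace Pool.Agent.H.MP_c8cc4c_co.Hub

variable {V : Type} [Fintype V] {R : Rt V} {l c : ℕ}

/-- a deep vertex of a region sees only this region -/
theorem Fam.N_same (F : Fam R l c) {h : ℕ} {K K' : Set V} {v : V} (hK : R.Core h K)
    (hK' : R.Core h K') (hv : v ∈ K) (hv' : v ∈ F.N K') (hf : h + l < R.f v) : K' = K := by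
  rcases hv' with hv' | ⟨u, hvu, a, ha, haK⟩
  · exact hK'.eq hK hv' hv
  · have h1 := near_sub (F.near_Q hvu (F.left_mem hvu) ha) (B := R.hi h) (by
      intro z hz
      have := R.near_f hz
      change h < R.f z
      omega)
    exact hK'.eq hK haK (hK.near hv (near_mono h1 le_rfl Set.inter_subset_right))

/-- at level zero every vertex sees only its own region -/
theorem Fam.N_same0 (F : Fam R l c) {K K' : Set V} {v : V} (hK : R.Core 0 K)
    (hK' : R.Core 0 K') (hv : v ∈ K) (hv' : v ∈ F.N K') : K' = K := by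
  rcases hv' with hv' | ⟨u, hvu, a, ha, haK⟩
  · exact hK'.eq hK hv' hv
  · have h1 := near_sub (F.near_Q hvu (F.left_mem hvu) ha) (B := R.hi 0) (by
      intro z hz
      have := F.Q_ne_o hvu (near_right hz)
      change 0 < R.f z
      rw [Nat.pos_iff_ne_zero]
      intro hc
      exact this ((R.f_zero z).1 hc))
    exact hK'.eq hK haK (hK.near hv (near_mono h1 le_rfl Set.inter_subset_right))

namespace Sys

variable {F : Fam R l c} {T : Tour R} {c2 : ℕ} (S : Sys F T c2) {j : ℕ} {v x u : V} {K K' : Set V}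

theorem core (h : S.β j v = some K) : R.Core (j * HH l) K := (S.asg j).core v K h

theorem mem (h : S.β j v = some K) : v ∈ F.N K := (S.asg j).mem v K h

/-- laminar: the region of the next level is inside, and `v` is in the region of this level -/
theorem down (h : S.β (j + 1) v = some K') : ∃ K, S.β j v = some K ∧ K' ⊆ K ∧ v ∈ K := by
  have hK' := S.core h
  have hv := S.mem h
  have hH : HH l = 3 * l + 1 := rfl
  have e1 : (j + 1) * HH l = j * HH l + (3 * l + 1) := by rw [add_mul, one_mul, hH]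
  have hf := F.N_f hK' hv
  obtain ⟨a, ha, hn⟩ := F.N_near_hi (h' := j * HH l) hK' hv (by omega)
  have hlo0 : v ∈ R.hi (j * HH l) := near_left hn
  have hlo : j * HH l < R.f v := hlo0
  have hK := Rt.comp_core hlo
  have hvK := Rt.mem_comp hlo
  have haK := hK.near hvK hn
  have hsub := hK'.sub_of_mem (by omega) hK ha haK
  obtain ⟨K'', h2⟩ := (S.asg j).ex v _ hK (F.mem_N_self hvK)
  have h3 := F.N_same hK ((S.asg j).core v K'' h2) hvK ((S.asg j).mem v K'' h2) (by omega)
  rw [h3] at h2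
  exact ⟨_, h2, hsub, hvK⟩

theorem lvl_symm (h : S.Lvl j K x u) : S.Lvl j K u x :=
  ⟨h.1.symm, h.2.2.1, h.2.1, fun ⟨K', h1, h2⟩ => h.2.2.2 ⟨K', h2, h1⟩⟩

theorem two (h : S.Lvl j K x u) : S.β (j + 2) x = none := by
  by_contra hcon
  obtain ⟨K'', h2⟩ := Option.ne_none_iff_exists'.1 hcon
  obtain ⟨K', h3, _, hxK'⟩ := S.down h2
  have hf := F.N_f (S.core h2) (S.mem h2)
  have e1 : (j + 2) * HH l = (j + 1) * HH l + (3 * l + 1) := by
    rw [show j + 2 = (j + 1) + 1 from rfl, add_mul, one_mul]; rfl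
  have hn := F.near_Q h.1 (F.left_mem h.1) (F.right_mem h.1)
  have hn' := near_sub hn (B := R.hi ((j + 1) * HH l)) (by
    intro z hz
    have := R.near_f hz
    change (j + 1) * HH l < R.f z
    omega)
  have hcore := S.core h3
  have huK' := hcore.near hxK' (near_mono hn' le_rfl Set.inter_subset_right)
  obtain ⟨K3, h4⟩ := (S.asg (j + 1)).ex u _ hcore (F.mem_N_self huK')
  have hfu := R.near_f hn
  have h5 := F.N_same hcore ((S.asg (j + 1)).core u K3 h4) huK' ((S.asg (j + 1)).mem u K3 h4)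
    (by omega)
  rw [h5] at h4
  exact h.2.2.2 ⟨K', h3, h4⟩

theorem zero (hxu : F.Γ.Adj x u) : ∃ K, S.β 0 x = some K ∧ S.β 0 u = some K := by
  have hpos : ∀ z ∈ F.Q s(x, u), 0 < R.f z := by
    intro z hz
    rw [Nat.pos_iff_ne_zero]
    intro hc
    exact F.Q_ne_o hxu hz ((R.f_zero z).1 hc)
  have hx0 := hpos x (F.left_mem hxu)
  have hK := Rt.comp_core (R := R) hx0
  have hxK := Rt.mem_comp (R := R) hx0
  have huK := hK.near hxK (near_mono (F.near_Q hxu (F.left_mem hxu) (F.right_mem hxu)) le_rfl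
    (fun z hz => hpos z hz))
  have e0 : 0 * HH l = 0 := zero_mul _
  have key : ∀ v, v ∈ R.comp 0 x → S.β 0 v = some (R.comp 0 x) := by
    intro v hv
    have hK0 : R.Core (0 * HH l) (R.comp 0 x) := by rw [e0]; exact hK
    obtain ⟨K'', h2⟩ := (S.asg 0).ex v _ hK0 (F.mem_N_self hv)
    have h3 := (S.asg 0).core v K'' h2
    rw [e0] at h3
    have h4 := F.N_same0 hK h3 hv ((S.asg 0).mem v K'' h2)
    rw [h4] at h2
    exact h2
  exact ⟨_, key x hxK, key u huK⟩

theorem exists_lvl (hxu : F.Γ.Adj x u) : ∃ j K, S.Lvl j K x u := by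
  by_contra hcon
  push Not at hcon
  have hall : ∀ j, ∃ K, S.β j x = some K ∧ S.β j u = some K := by
    intro j
    induction j with
    | zero => exact S.zero hxu
    | succ j ih =>
      obtain ⟨K, h1, h2⟩ := ih
      by_contra h3
      exact hcon j K ⟨hxu, h1, h2, h3⟩
  obtain ⟨K, h1, _⟩ := hall (∑ v, R.f v)
  have hcore := S.core h1
  obtain ⟨h2, h3⟩ := S.k_mem _ K hcore
  have h4 : R.f (S.k K) ≤ ∑ v, R.f v :=
    Finset.single_le_sum (f := fun v => R.f v) (fun _ _ => Nat.zero_le _) (mem_univ _)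
  have h5 : (∑ v, R.f v) ≤ (∑ v, R.f v) * HH l :=
    Nat.le_mul_of_pos_right _ (by unfold HH; omega)
  omega

end Sys

/-- Part L -/
theorem lev : LevStmt := by
  intro V _ R l c c2 F T S
  refine ⟨?_, ?_, ?_⟩
  · intro j v K' h
    obtain ⟨K, h1, h2, _⟩ := S.down h
    exact ⟨K, h1, h2⟩
  · intro j K x u h
    exact ⟨S.two h, S.two (S.lvl_symm h)⟩
  · intro x u h
    exact S.exists_lvl h

end Pool.Agent.H.MP_c8cc4c_co.Hub
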