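import Mathlib
import Pool.Agent.H.MP_c8cc4c_co.Hub.Lev

/-!
# MP_c8cc4c_co, full question: assembly of the theorem on families of paths
-/

open scoped Classical
open Finset

noncomputable section

namespace Pool.Agent.H.MP_c8cc4c_co.Hub

variable {V : Type}

/-- a region has a vertex of the least possible height -/
theorem Rt.Core.root {R : Rt V} {h : ℕ} {K : Set V} (hK : R.Core h K) :
    ∃ a ∈ K, R.f a = h + 1 := by
  obtain ⟨v, hv⟩ := hK.conn.1
  have h1 := hK.hi hv
  have h2 : R.f (R.par^[R.f v - (h + 1)] v) = h + 1 := by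
    rw [R.f_iter]; omega
  exact ⟨_, hK.up hv ⟨_, rfl⟩ (by omega), h2⟩

/-- the height of a region is unique -/
theorem Rt.Core.height {R : Rt V} {h h' : ℕ} {K : Set V} (hK : R.Core h K) (hK' : R.Core h' K) :
    h = h' := by
  obtain ⟨a, ha, ha'⟩ := hK.root
  obtain ⟨b, hb, hb'⟩ := hK'.root
  have h1 := hK'.hi ha
  have h2 := hK.hi hb
  omega

theorem exists_sys [Fintype V] {R : Rt V} {l c : ℕ} (F : Fam R l c) (T : Tour R) (c2 : ℕ)
    (h : ∀ j : ℕ, Nonempty (F.Asg (j * HH l) c2)) : Nonempty (Sys F T c2) := by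
  have hk : ∀ K : Set V, ∃ a, ∀ h, R.Core h K → a ∈ K ∧ R.f a = h + 1 := by
    intro K
    by_cases hex : ∃ h, R.Core h K
    · obtain ⟨h, hK⟩ := hex
      obtain ⟨a, ha, ha'⟩ := hK.root
      exact ⟨a, fun h' hK' => ⟨ha, by rw [ha', hK.height hK']⟩⟩
    · exact ⟨R.o, fun h hK => absurd ⟨h, hK⟩ hex⟩
  choose k hk using hk
  have hf : ∀ v, ∃ t < T.m, T.own t = v := T.surj
  choose fst hf1 hf2 using hf
  have he : ∀ (K : Set V) (v : V), ∃ (W : Finset V) (a b : V), v ∈ F.N K → v ∉ K →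
      F.Exit K v W a b := by
    intro K v
    by_cases h1 : v ∈ F.N K ∧ v ∉ K
    · obtain ⟨W, a, b, h2⟩ := F.exists_exit h1.1 h1.2
      exact ⟨W, a, b, fun _ _ => h2⟩
    · exact ⟨∅, v, v, fun h2 h3 => absurd ⟨h2, h3⟩ h1⟩
  choose W ea eb he using he
  exact ⟨{ asg := fun j => (h j).some, k := k, k_mem := fun h K hK => hk K h hK, fst := fst,
           fst_lt := hf1, fst_own := hf2, W := W, ea := ea, eb := eb,
           exit := fun _ K v _ h1 h2 => he K v h1 h2 }⟩

/-- injective positions which extend a preorder given by a key -/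
theorem exists_pos [Fintype V] {α : Type} [LinearOrder α] (key : V → α) :
    ∃ pos : V → ℕ, Function.Injective pos ∧ ∀ x y, key x < key y → pos x < pos y := by
  set en := Fintype.equivFin V with hen
  set r : V → V → Prop := fun x y => key x < key y ∨ (key x = key y ∧ en x < en y) with hr
  have htr : ∀ x y z, r x y → r y z → r x z := by
    rintro x y z (h1 | ⟨h1, h2⟩) (h3 | ⟨h3, h4⟩)
    · exact Or.inl (h1.trans h3)
    · exact Or.inl (h3 ▸ h1)
    · exact Or.inl (h1 ▸ h3)
    · exact Or.inr ⟨h1.trans h3, h2.trans h4⟩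
  have hir : ∀ x, ¬ r x x := by
    rintro x (h1 | ⟨_, h2⟩)
    · exact lt_irrefl _ h1
    · exact lt_irrefl _ h2
  have htot : ∀ x y, x ≠ y → r x y ∨ r y x := by
    intro x y hxy
    rcases lt_trichotomy (key x) (key y) with h1 | h1 | h1
    · exact Or.inl (Or.inl h1)
    · rcases lt_or_gt_of_ne (fun h => hxy (en.injective h)) with h2 | h2
      · exact Or.inl (Or.inr ⟨h1, h2⟩)
      · exact Or.inr (Or.inr ⟨h1.symm, h2⟩)
    · exact Or.inr (Or.inl h1)
  have hlt : ∀ x y, r x y → (univ.filter fun z => r z x).card < (univ.filter fun z => r z y).card := by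
    intro x y hxy
    apply Finset.card_lt_card
    rw [Finset.ssubset_iff_of_subset]
    · exact ⟨x, Finset.mem_filter.2 ⟨mem_univ _, hxy⟩, fun h => hir x (Finset.mem_filter.1 h).2⟩
    · intro z hz
      exact Finset.mem_filter.2 ⟨mem_univ _, htr z x y (Finset.mem_filter.1 hz).2 hxy⟩
  refine ⟨fun x => (univ.filter fun z => r z x).card, ?_, fun x y h => hlt x y (Or.inl h)⟩
  intro x y hxy
  by_contra hne
  rcases htot x y hne with h | h
  · exact absurd hxy (hlt x y h).ne
  · exact absurd hxy (hlt y x h).ne'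

/-- assembly -/
theorem fam_of (hCross : CrossStmt) (hSand : SandStmt) (hCol : ColourStmt) (hAsg : AssignStmt) :
    FamStmt := by
  intro l c
  obtain ⟨c2, hc2⟩ := hAsg l c
  obtain ⟨N, hN, hcol⟩ := hCol l c c2
  refine ⟨2 * N, by omega, ?_⟩
  rintro V _ R h5 h34 ⟨T⟩ F
  obtain ⟨S⟩ := exists_sys F T c2 (fun j => hc2 V R h5 h34 F (j * HH l))
  obtain ⟨pos, hinj, hpos⟩ := exists_pos S.key
  have hle : ∀ x y, pos x < pos y → S.key x ≤ S.key y := by
    intro x y hxy
    by_contra hcon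
    exact absurd (hpos y x (not_le.1 hcon)) (by omega)
  have hphi := fun j => hcol V R h5 F T S j
  choose φ hφ using hphi
  -- levels
  have hj : ∀ e : Sym2 V, ∃ j, ∀ x u, e = s(x, u) → F.Γ.Adj x u → ∃ K, S.Lvl j K x u := by
    intro e
    induction e with
    | _ a b =>
      by_cases hab : F.Γ.Adj a b
      · obtain ⟨j, K, hL⟩ := S.exists_lvl hab
        refine ⟨j, fun x u he _ => ⟨K, ?_⟩⟩
        rcases Sym2.eq_iff.1 he with ⟨rfl, rfl⟩ | ⟨rfl, rfl⟩
        · exact hL
        · exact S.lvl_symm hL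
      · refine ⟨0, fun x u he hxu => absurd ?_ hab⟩
        rcases Sym2.eq_iff.1 he with ⟨rfl, rfl⟩ | ⟨rfl, rfl⟩
        · exact hxu
        · exact hxu.symm
  choose J hJ using hj
  -- downward closure
  have hdown : ∀ n j v K, S.β (j + n) v = some K → ∃ K', S.β j v = some K' := by
    intro n
    induction n with
    | zero => exact fun j v K h => ⟨K, h⟩
    | succ n ih =>
      intro j v K h
      obtain ⟨K', h1, _⟩ := S.down (j := j + n) h
      exact ih j v K' h1
  refine ⟨pos, fun e => finProdFinEquiv (⟨J e % 2, Nat.mod_lt _ (by omega)⟩, φ (J e) e), hinj, ?_⟩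
  intro x y u w hxu hyw h1 h2 h3 hpage
  have hp := finProdFinEquiv.injective hpage
  rw [Prod.mk.injEq, Fin.mk.injEq] at hp
  obtain ⟨hpar, hph⟩ := hp
  obtain ⟨K, hL⟩ := hJ s(x, u) x u rfl hxu
  obtain ⟨K', hL'⟩ := hJ s(y, w) y w rfl hyw
  generalize J s(x, u) = j at *
  generalize J s(y, w) = j' at *
  have kxy := hle x y h1
  have kyu := hle y u h2
  have kuw := hle u w h3
  rcases lt_trichotomy j j' with hlt | rfl | hlt
  · -- j < j'
    have hu := hSand V R l c c2 F T S j' K' y u w hL'.2.1 hL'.2.2.1 kyu kuw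
    obtain ⟨n, hn⟩ : ∃ n, j' = (j + 2) + n := ⟨j' - (j + 2), by omega⟩
    rw [hn] at hu
    obtain ⟨K2, hK2⟩ := hdown n (j + 2) u K' hu
    rw [S.two (S.lvl_symm hL)] at hK2
    cases hK2
  · -- j = j'
    have hy := hSand V R l c c2 F T S j K x y u hL.2.1 hL.2.2.1 kxy kyu
    have hne : ∀ a b, pos a < pos b → a ≠ b := by
      rintro a b hab rfl
      exact lt_irrefl _ hab
    exact hφ j K K' x u y w hL hL' (hne _ _ h1) (hne _ _ (h1.trans (h2.trans h3)))
      (hne _ _ h2).symm (hne _ _ h3) hph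
      (hCross V R l c c2 F T S pos hpos j K x u y w hL
        ((Option.some.inj (hL'.2.1.symm.trans hy)) ▸ hL') h1 h2 h3)
  · -- j' < j
    have hy := hSand V R l c c2 F T S j K x y u hL.2.1 hL.2.2.1 kxy kyu
    obtain ⟨n, hn⟩ : ∃ n, j = (j' + 2) + n := ⟨j - (j' + 2), by omega⟩
    rw [hn] at hy
    obtain ⟨K2, hK2⟩ := hdown n (j' + 2) y K hy
    rw [S.two hL'] at hK2
    cases hK2

end Pool.Agent.H.MP_c8cc4c_co.Hub
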