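import Mathlib
import Pool.Agent.H.MP_c8cc4c_co.Book
import Pool.Agent.H.MP_c8cc4c_co.F.SdC
import Pool.Agent.H.MP_c8cc4c_co.Hub.Main
import Pool.Agent.H.MP_c8cc4c_co.Hub.O.Keys
import Pool.Agent.H.MP_c8cc4c_co.Hub.O.Att
import Pool.Agent.H.MP_c8cc4c_co.Hub.M.Fact2
import Pool.Agent.H.MP_c8cc4c_co.Hub.M.M5
import Pool.Agent.H.MP_c8cc4c_co.Hub.M.K34
import Pool.Agent.H.MP_c8cc4c_co.Hub.T.Tour
import Pool.Agent.H.MP_c8cc4c_co.Hub.A.Asg
import Pool.Agent.H.MP_c8cc4c_co.Hub.C.Final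
import Pool.Agent.H.MP_c8cc4c_co.Hub.D.Final

/-!
# MP_c8cc4c_co: every k-planar graph has bounded book thickness
-/

namespace Pool.Agent.H.MP_c8cc4c_co.Hub

theorem fam_stmt : FamStmt :=
  fam_of (cross_stmt lev) (sand_stmt lev) (colour_stmt fact2) (assign fact2)

theorem full (k : ℕ) : ∃ b : ℕ, ∀ (W : Type) [Fintype W] (G : SimpleGraph W),
    KPlanar k G → BookLE G b :=
  draw_stmt fam_stmt tour m5 k34 sd_sphere k

end Pool.Agent.H.MP_c8cc4c_co.Hub
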